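import Mathlib

set_option autoImplicit false

namespace Pool.Agent.Helper36.LeibPoly

open MvPolynomial

/-- Openness of injectivity for a matrix with polynomial entries: there is a single polynomial
that does not vanish at the base point and whose non-vanishing forces injectivity. -/
theorem exists_poly_of_injective {σ m n : Type*} [Fintype m] [Fintype n] [DecidableEq m]
    [DecidableEq n] (A : Matrix m n (MvPolynomial σ ℂ)) (c₀ : σ → ℂ)
    (h : Function.Injective (A.map (eval c₀)).mulVec) :
    ∃ D : MvPolynomial σ ℂ, eval c₀ D ≠ 0 ∧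
      ∀ c, eval c D ≠ 0 → ∀ x, (A.map (eval c)).mulVec x = 0 → x = 0 := by
  have hinj : Function.Injective (Matrix.mulVecLin (A.map (eval c₀))) := by
    intro x y hxy
    exact h (by simpa using hxy)
  obtain ⟨g, hg⟩ := LinearMap.exists_leftInverse_of_injective (Matrix.mulVecLin (A.map (eval c₀)))
    (LinearMap.ker_eq_bot.2 hinj)
  let M : Matrix n m ℂ := LinearMap.toMatrix' g
  have hM : M * (A.map (eval c₀)) = 1 := by
    have h1 : LinearMap.toMatrix' (g.comp (Matrix.mulVecLin (A.map (eval c₀)))) =
        LinearMap.toMatrix' g * LinearMap.toMatrix' (Matrix.mulVecLin (A.map (eval c₀))) :=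
      LinearMap.toMatrix'_comp _ _
    rw [hg] at h1
    have h2 : LinearMap.toMatrix' (Matrix.mulVecLin (A.map (eval c₀))) = A.map (eval c₀) := by
      rw [← Matrix.toLin'_apply']
      exact LinearMap.toMatrix'_toLin' _
    rw [h2] at h1
    exact h1.symm.trans LinearMap.toMatrix'_id
  refine ⟨(M.map (C : ℂ → MvPolynomial σ ℂ) * A).det, ?_, ?_⟩
  · have : eval c₀ (M.map (C : ℂ → MvPolynomial σ ℂ) * A).det = (M * A.map (eval c₀)).det := by
      rw [RingHom.map_det]
      congr 1
      ext i j
      simp [Matrix.mul_apply, RingHom.mapMatrix_apply]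
    rw [this, hM]
    simp
  · intro c hc x hx
    have : eval c (M.map (C : ℂ → MvPolynomial σ ℂ) * A).det = (M * A.map (eval c)).det := by
      rw [RingHom.map_det]
      congr 1
      ext i j
      simp [Matrix.mul_apply, RingHom.mapMatrix_apply]
    rw [this] at hc
    have h3 : (M * A.map (eval c)).mulVec x = 0 := by
      rw [← Matrix.mulVec_mulVec, hx, Matrix.mulVec_zero]
    exact Matrix.eq_zero_of_mulVec_eq_zero hc h3

end Pool.Agent.Helper36.LeibPoly
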