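import Mathlib
import Pool.Agent.Helper36.LeibPoly

set_option autoImplicit false

namespace Pool.Agent.Helper36.LeibSys

open MvPolynomial

abbrev Unk := (Fin 4 × Fin 4 × Fin 4) ⊕ (Fin 4 × Fin 2 × Fin 2)
abbrev Eqn := (Fin 4 × Fin 4 × Fin 4 × Fin 2) ⊕ (Fin 4 × Fin 4 × Fin 4)
abbrev Idx := Fin 6 × Fin 6 × Fin 6

/-- the embedding of the first four indices -/
def lo (i : Fin 4) : Fin 6 := Fin.castAdd 2 i
/-- the embedding of the last two indices -/
def hi (a : Fin 2) : Fin 6 := Fin.natAdd 4 a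

/-- the `W`-component of the Leibniz identity, linear in `(G, Q)` with coefficients `p` -/
def sysE {R : Type*} [CommRing R] (p : Fin 4 → Fin 4 → Fin 2 → R)
    (x : Unk → R) (i j l : Fin 4) (a : Fin 2) : R :=
  ∑ s, x (Sum.inl (j, l, s)) * p i s a + ∑ b, x (Sum.inr (i, b, a)) * p j l b
    - ∑ s, x (Sum.inl (i, j, s)) * p s l a - ∑ s, x (Sum.inl (i, l, s)) * p j s a
    - ∑ b, x (Sum.inr (j, b, a)) * p i l b

def sys {R : Type*} [CommRing R] (p : Fin 4 → Fin 4 → Fin 2 → R)
    (x : Unk → R) : Eqn → R :=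
  Sum.elim (fun e => sysE p x e.1 e.2.1 e.2.2.1 e.2.2.2)
    (fun e => x (Sum.inl (e.1, e.2.1, e.2.2)) + x (Sum.inl (e.2.1, e.1, e.2.2)))

def sysLin (p : Fin 4 → Fin 4 → Fin 2 → ℂ) : (Unk → ℂ) →ₗ[ℂ] (Eqn → ℂ) where
  toFun := sys p
  map_add' x y := by
    funext e
    rcases e with e | e
    · simp only [sys, sysE, Sum.elim_inl, Pi.add_apply, add_mul, Finset.sum_add_distrib]
      ring
    · simp only [sys, Sum.elim_inr, Pi.add_apply]
      ring
  map_smul' r x := by
    funext e
    rcases e with e | e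
    · simp only [sys, sysE, Sum.elim_inl, Pi.smul_apply, smul_eq_mul, RingHom.id_apply,
        mul_assoc, ← Finset.mul_sum]
      ring
    · simp only [sys, Sum.elim_inr, Pi.smul_apply, smul_eq_mul, RingHom.id_apply]
      ring

/-- coordinates of `c` in the `W`-part on `V × V` -/
def pc (c : Idx → ℂ) : Fin 4 → Fin 4 → Fin 2 → ℂ := fun i j a => c (lo i, lo j, hi a)
noncomputable def pX : Fin 4 → Fin 4 → Fin 2 → MvPolynomial Idx ℂ :=
  fun i j a => X (lo i, lo j, hi a)

noncomputable def sysMat : Matrix Eqn Unk (MvPolynomial Idx ℂ) :=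
  Matrix.of fun e u => sys pX (Pi.single u 1) e

theorem sysMat_map (c : Idx → ℂ) (e : Eqn) (u : Unk) :
    eval c (sysMat e u) = sys (pc c) (Pi.single u 1) e := by
  have key : ∀ v : Unk, eval c ((Pi.single u 1 : Unk → MvPolynomial Idx ℂ) v) =
      (Pi.single u 1 : Unk → ℂ) v := by
    intro v
    by_cases h : v = u
    · subst h; simp
    · simp [Pi.single_eq_of_ne h]
  rcases e with e | e
  · simp [sysMat, sys, sysE, key, pX, pc]
  · simp [sysMat, sys, key]

theorem sysMat_mulVec (c : Idx → ℂ) (x : Unk → ℂ) :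
    (sysMat.map (eval c)).mulVec x = sys (pc c) x := by
  funext e
  have h := LinearMap.pi_apply_eq_sum_univ (sysLin (pc c)) x
  have h2 : sys (pc c) x e = ∑ u, x u * sys (pc c) (Pi.single u 1) e := by
    have h3 := congrFun h e
    simp only [sysLin, LinearMap.coe_mk, AddHom.coe_mk] at h3
    rw [h3, Finset.sum_apply]
    refine Finset.sum_congr rfl (fun u _ => ?_)
    simp only [Pi.smul_apply, smul_eq_mul]
    congr 2
    funext v
    by_cases hv : u = v
    · subst hv; simp
    · simp [hv, Pi.single_eq_of_ne (Ne.symm hv)]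
  rw [h2]
  simp only [Matrix.mulVec, dotProduct, Matrix.map_apply]
  refine Finset.sum_congr rfl (fun u _ => ?_)
  rw [sysMat_map, mul_comm]

end Pool.Agent.Helper36.LeibSys
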