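import Mathlib
import Pool.Agent.Helper36.LeibSys

set_option autoImplicit false
set_option linter.unusedSimpArgs false

namespace Pool.Agent.Helper36.LeibSys

/-- base point: nonzero products e0e0=e4, e1e1=e5, e2e2=e4, e2e3=e5, e3e1=e4 -/
noncomputable def c0 : Idx → ℂ := fun t =>
  if t = (0, 0, 4) ∨ t = (1, 1, 5) ∨ t = (2, 2, 4) ∨ t = (2, 3, 5) ∨ t = (3, 1, 4) then 1 else 0

theorem p000 : pc c0 0 0 0 = 1 := by
  simp [pc, c0, lo, hi, Fin.ext_iff]
theorem p001 : pc c0 0 0 1 = 0 := by
  simp [pc, c0, lo, hi, Fin.ext_iff]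
theorem p010 : pc c0 0 1 0 = 0 := by
  simp [pc, c0, lo, hi, Fin.ext_iff]
theorem p011 : pc c0 0 1 1 = 0 := by
  simp [pc, c0, lo, hi, Fin.ext_iff]
theorem p020 : pc c0 0 2 0 = 0 := by
  simp [pc, c0, lo, hi, Fin.ext_iff]
theorem p021 : pc c0 0 2 1 = 0 := by
  simp [pc, c0, lo, hi, Fin.ext_iff]
theorem p030 : pc c0 0 3 0 = 0 := by
  simp [pc, c0, lo, hi, Fin.ext_iff]
theorem p031 : pc c0 0 3 1 = 0 := by
  simp [pc, c0, lo, hi, Fin.ext_iff]
theorem p100 : pc c0 1 0 0 = 0 := by
  simp [pc, c0, lo, hi, Fin.ext_iff]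
theorem p101 : pc c0 1 0 1 = 0 := by
  simp [pc, c0, lo, hi, Fin.ext_iff]
theorem p110 : pc c0 1 1 0 = 0 := by
  simp [pc, c0, lo, hi, Fin.ext_iff]
theorem p111 : pc c0 1 1 1 = 1 := by
  simp [pc, c0, lo, hi, Fin.ext_iff]
theorem p120 : pc c0 1 2 0 = 0 := by
  simp [pc, c0, lo, hi, Fin.ext_iff]
theorem p121 : pc c0 1 2 1 = 0 := by
  simp [pc, c0, lo, hi, Fin.ext_iff]
theorem p130 : pc c0 1 3 0 = 0 := by
  simp [pc, c0, lo, hi, Fin.ext_iff]
theorem p131 : pc c0 1 3 1 = 0 := by
  simp [pc, c0, lo, hi, Fin.ext_iff]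
theorem p200 : pc c0 2 0 0 = 0 := by
  simp [pc, c0, lo, hi, Fin.ext_iff]
theorem p201 : pc c0 2 0 1 = 0 := by
  simp [pc, c0, lo, hi, Fin.ext_iff]
theorem p210 : pc c0 2 1 0 = 0 := by
  simp [pc, c0, lo, hi, Fin.ext_iff]
theorem p211 : pc c0 2 1 1 = 0 := by
  simp [pc, c0, lo, hi, Fin.ext_iff]
theorem p220 : pc c0 2 2 0 = 1 := by
  simp [pc, c0, lo, hi, Fin.ext_iff]
theorem p221 : pc c0 2 2 1 = 0 := by
  simp [pc, c0, lo, hi, Fin.ext_iff]
theorem p230 : pc c0 2 3 0 = 0 := by
  simp [pc, c0, lo, hi, Fin.ext_iff]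
theorem p231 : pc c0 2 3 1 = 1 := by
  simp [pc, c0, lo, hi, Fin.ext_iff]
theorem p300 : pc c0 3 0 0 = 0 := by
  simp [pc, c0, lo, hi, Fin.ext_iff]
theorem p301 : pc c0 3 0 1 = 0 := by
  simp [pc, c0, lo, hi, Fin.ext_iff]
theorem p310 : pc c0 3 1 0 = 1 := by
  simp [pc, c0, lo, hi, Fin.ext_iff]
theorem p311 : pc c0 3 1 1 = 0 := by
  simp [pc, c0, lo, hi, Fin.ext_iff]
theorem p320 : pc c0 3 2 0 = 0 := by
  simp [pc, c0, lo, hi, Fin.ext_iff]
theorem p321 : pc c0 3 2 1 = 0 := by
  simp [pc, c0, lo, hi, Fin.ext_iff]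
theorem p330 : pc c0 3 3 0 = 0 := by
  simp [pc, c0, lo, hi, Fin.ext_iff]
theorem p331 : pc c0 3 3 1 = 0 := by
  simp [pc, c0, lo, hi, Fin.ext_iff]

theorem c0_inj (x : Unk → ℂ) (h : sys (pc c0) x = 0) : x = 0 := by
  have hg000 : x (Sum.inl (0, 0, 0)) = 0 := by
    have E := congrFun h (Sum.inl (0, 0, 0, 0))
    simp only [sys, sysE, Sum.elim_inl, Fin.sum_univ_four, Fin.sum_univ_two, p000, p001, p010, p011, p020, p021, p030, p031, p100, p101, p110, p111, p120, p121, p130, p131, p200, p201, p210, p211, p220, p221, p230, p231, p300, p301, p310, p311, p320, p321, p330, p331, mul_zero, mul_one, add_zero, zero_add, Pi.zero_apply] at E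
    linear_combination (1/(-1) : ℂ) * E
  have hg003 : x (Sum.inl (0, 0, 3)) = 0 := by
    have E := congrFun h (Sum.inl (0, 0, 1, 0))
    simp only [sys, sysE, Sum.elim_inl, Fin.sum_univ_four, Fin.sum_univ_two, p000, p001, p010, p011, p020, p021, p030, p031, p100, p101, p110, p111, p120, p121, p130, p131, p200, p201, p210, p211, p220, p221, p230, p231, p300, p301, p310, p311, p320, p321, p330, p331, mul_zero, mul_one, add_zero, zero_add, Pi.zero_apply] at E
    linear_combination (1/(-1) : ℂ) * E
  have hg001 : x (Sum.inl (0, 0, 1)) = 0 := by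
    have E := congrFun h (Sum.inl (0, 0, 1, 1))
    simp only [sys, sysE, Sum.elim_inl, Fin.sum_univ_four, Fin.sum_univ_two, p000, p001, p010, p011, p020, p021, p030, p031, p100, p101, p110, p111, p120, p121, p130, p131, p200, p201, p210, p211, p220, p221, p230, p231, p300, p301, p310, p311, p320, p321, p330, p331, mul_zero, mul_one, add_zero, zero_add, Pi.zero_apply] at E
    linear_combination (1/(-1) : ℂ) * E
  have hg002 : x (Sum.inl (0, 0, 2)) = 0 := by
    have E := congrFun h (Sum.inl (0, 0, 2, 0))
    simp only [sys, sysE, Sum.elim_inl, Fin.sum_univ_four, Fin.sum_univ_two, p000, p001, p010, p011, p020, p021, p030, p031, p100, p101, p110, p111, p120, p121, p130, p131, p200, p201, p210, p211, p220, p221, p230, p231, p300, p301, p310, p311, p320, p321, p330, p331, mul_zero, mul_one, add_zero, zero_add, Pi.zero_apply] at E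
    linear_combination (1/(-1) : ℂ) * E
  have hr101 : x (Sum.inr (1, 0, 1)) = 0 := by
    have E := congrFun h (Sum.inl (0, 1, 0, 1))
    simp only [sys, sysE, Sum.elim_inl, Fin.sum_univ_four, Fin.sum_univ_two, p000, p001, p010, p011, p020, p021, p030, p031, p100, p101, p110, p111, p120, p121, p130, p131, p200, p201, p210, p211, p220, p221, p230, p231, p300, p301, p310, p311, p320, p321, p330, p331, mul_zero, mul_one, add_zero, zero_add, Pi.zero_apply] at E
    linear_combination (1/(-1) : ℂ) * E + (-(-1)/(-1) : ℂ) * hg001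
  have hg021 : x (Sum.inl (0, 2, 1)) = 0 := by
    have E := congrFun h (Sum.inl (0, 1, 2, 1))
    simp only [sys, sysE, Sum.elim_inl, Fin.sum_univ_four, Fin.sum_univ_two, p000, p001, p010, p011, p020, p021, p030, p031, p100, p101, p110, p111, p120, p121, p130, p131, p200, p201, p210, p211, p220, p221, p230, p231, p300, p301, p310, p311, p320, p321, p330, p331, mul_zero, mul_one, add_zero, zero_add, Pi.zero_apply] at E
    linear_combination (1/(-1) : ℂ) * E
  have hg130 : x (Sum.inl (1, 3, 0)) = 0 := by
    have E := congrFun h (Sum.inl (0, 1, 3, 0))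
    simp only [sys, sysE, Sum.elim_inl, Fin.sum_univ_four, Fin.sum_univ_two, p000, p001, p010, p011, p020, p021, p030, p031, p100, p101, p110, p111, p120, p121, p130, p131, p200, p201, p210, p211, p220, p221, p230, p231, p300, p301, p310, p311, p320, p321, p330, p331, mul_zero, mul_one, add_zero, zero_add, Pi.zero_apply] at E
    linear_combination (1/(1) : ℂ) * E
  have hr201 : x (Sum.inr (2, 0, 1)) = 0 := by
    have E := congrFun h (Sum.inl (0, 2, 0, 1))
    simp only [sys, sysE, Sum.elim_inl, Fin.sum_univ_four, Fin.sum_univ_two, p000, p001, p010, p011, p020, p021, p030, p031, p100, p101, p110, p111, p120, p121, p130, p131, p200, p201, p210, p211, p220, p221, p230, p231, p300, p301, p310, p311, p320, p321, p330, p331, mul_zero, mul_one, add_zero, zero_add, Pi.zero_apply] at E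
    linear_combination (1/(-1) : ℂ) * E + (-(-1)/(-1) : ℂ) * hg003
  have hg013 : x (Sum.inl (0, 1, 3)) = 0 := by
    have E := congrFun h (Sum.inl (0, 2, 1, 1))
    simp only [sys, sysE, Sum.elim_inl, Fin.sum_univ_four, Fin.sum_univ_two, p000, p001, p010, p011, p020, p021, p030, p031, p100, p101, p110, p111, p120, p121, p130, p131, p200, p201, p210, p211, p220, p221, p230, p231, p300, p301, p310, p311, p320, p321, p330, p331, mul_zero, mul_one, add_zero, zero_add, Pi.zero_apply] at E
    linear_combination (1/(-1) : ℂ) * E + (-(-1)/(-1) : ℂ) * hg021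
  have hr301 : x (Sum.inr (3, 0, 1)) = 0 := by
    have E := congrFun h (Sum.inl (0, 3, 0, 1))
    simp only [sys, sysE, Sum.elim_inl, Fin.sum_univ_four, Fin.sum_univ_two, p000, p001, p010, p011, p020, p021, p030, p031, p100, p101, p110, p111, p120, p121, p130, p131, p200, p201, p210, p211, p220, p221, p230, p231, p300, p301, p310, p311, p320, p321, p330, p331, mul_zero, mul_one, add_zero, zero_add, Pi.zero_apply] at E
    linear_combination (1/(-1) : ℂ) * E
  have hg032 : x (Sum.inl (0, 3, 2)) = 0 := by
    have E := congrFun h (Sum.inl (0, 3, 3, 1))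
    simp only [sys, sysE, Sum.elim_inl, Fin.sum_univ_four, Fin.sum_univ_two, p000, p001, p010, p011, p020, p021, p030, p031, p100, p101, p110, p111, p120, p121, p130, p131, p200, p201, p210, p211, p220, p221, p230, p231, p300, p301, p310, p311, p320, p321, p330, p331, mul_zero, mul_one, add_zero, zero_add, Pi.zero_apply] at E
    linear_combination (1/(-1) : ℂ) * E
  have hg110 : x (Sum.inl (1, 1, 0)) = 0 := by
    have E := congrFun h (Sum.inl (1, 1, 0, 0))
    simp only [sys, sysE, Sum.elim_inl, Fin.sum_univ_four, Fin.sum_univ_two, p000, p001, p010, p011, p020, p021, p030, p031, p100, p101, p110, p111, p120, p121, p130, p131, p200, p201, p210, p211, p220, p221, p230, p231, p300, p301, p310, p311, p320, p321, p330, p331, mul_zero, mul_one, add_zero, zero_add, Pi.zero_apply] at E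
    linear_combination (1/(-1) : ℂ) * E
  have hg113 : x (Sum.inl (1, 1, 3)) = 0 := by
    have E := congrFun h (Sum.inl (1, 1, 1, 0))
    simp only [sys, sysE, Sum.elim_inl, Fin.sum_univ_four, Fin.sum_univ_two, p000, p001, p010, p011, p020, p021, p030, p031, p100, p101, p110, p111, p120, p121, p130, p131, p200, p201, p210, p211, p220, p221, p230, p231, p300, p301, p310, p311, p320, p321, p330, p331, mul_zero, mul_one, add_zero, zero_add, Pi.zero_apply] at E
    linear_combination (1/(-1) : ℂ) * E
  have hg111 : x (Sum.inl (1, 1, 1)) = 0 := by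
    have E := congrFun h (Sum.inl (1, 1, 1, 1))
    simp only [sys, sysE, Sum.elim_inl, Fin.sum_univ_four, Fin.sum_univ_two, p000, p001, p010, p011, p020, p021, p030, p031, p100, p101, p110, p111, p120, p121, p130, p131, p200, p201, p210, p211, p220, p221, p230, p231, p300, p301, p310, p311, p320, p321, p330, p331, mul_zero, mul_one, add_zero, zero_add, Pi.zero_apply] at E
    linear_combination (1/(-1) : ℂ) * E
  have hg112 : x (Sum.inl (1, 1, 2)) = 0 := by
    have E := congrFun h (Sum.inl (1, 1, 2, 0))
    simp only [sys, sysE, Sum.elim_inl, Fin.sum_univ_four, Fin.sum_univ_two, p000, p001, p010, p011, p020, p021, p030, p031, p100, p101, p110, p111, p120, p121, p130, p131, p200, p201, p210, p211, p220, p221, p230, p231, p300, p301, p310, p311, p320, p321, p330, p331, mul_zero, mul_one, add_zero, zero_add, Pi.zero_apply] at E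
    linear_combination (1/(-1) : ℂ) * E
  have hg101 : x (Sum.inl (1, 0, 1)) = 0 := by
    have E := congrFun h (Sum.inl (1, 3, 0, 0))
    simp only [sys, sysE, Sum.elim_inl, Fin.sum_univ_four, Fin.sum_univ_two, p000, p001, p010, p011, p020, p021, p030, p031, p100, p101, p110, p111, p120, p121, p130, p131, p200, p201, p210, p211, p220, p221, p230, p231, p300, p301, p310, p311, p320, p321, p330, p331, mul_zero, mul_one, add_zero, zero_add, Pi.zero_apply] at E
    linear_combination (1/(-1) : ℂ) * E + (-(-1)/(-1) : ℂ) * hg130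
  have hg301 : x (Sum.inl (3, 0, 1)) = 0 := by
    have E := congrFun h (Sum.inl (1, 3, 0, 1))
    simp only [sys, sysE, Sum.elim_inl, Fin.sum_univ_four, Fin.sum_univ_two, p000, p001, p010, p011, p020, p021, p030, p031, p100, p101, p110, p111, p120, p121, p130, p131, p200, p201, p210, p211, p220, p221, p230, p231, p300, p301, p310, p311, p320, p321, p330, p331, mul_zero, mul_one, add_zero, zero_add, Pi.zero_apply] at E
    linear_combination (1/(1) : ℂ) * E
  have hg321 : x (Sum.inl (3, 2, 1)) = 0 := by
    have E := congrFun h (Sum.inl (1, 3, 2, 1))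
    simp only [sys, sysE, Sum.elim_inl, Fin.sum_univ_four, Fin.sum_univ_two, p000, p001, p010, p011, p020, p021, p030, p031, p100, p101, p110, p111, p120, p121, p130, p131, p200, p201, p210, p211, p220, p221, p230, p231, p300, p301, p310, p311, p320, p321, p330, p331, mul_zero, mul_one, add_zero, zero_add, Pi.zero_apply] at E
    linear_combination (1/(1) : ℂ) * E
  have hg131 : x (Sum.inl (1, 3, 1)) = 0 := by
    have E := congrFun h (Sum.inl (1, 3, 3, 0))
    simp only [sys, sysE, Sum.elim_inl, Fin.sum_univ_four, Fin.sum_univ_two, p000, p001, p010, p011, p020, p021, p030, p031, p100, p101, p110, p111, p120, p121, p130, p131, p200, p201, p210, p211, p220, p221, p230, p231, p300, p301, p310, p311, p320, p321, p330, p331, mul_zero, mul_one, add_zero, zero_add, Pi.zero_apply] at E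
    linear_combination (1/(-1) : ℂ) * E
  have hg201 : x (Sum.inl (2, 0, 1)) = 0 := by
    have E := congrFun h (Sum.inl (2, 0, 1, 1))
    simp only [sys, sysE, Sum.elim_inl, Fin.sum_univ_four, Fin.sum_univ_two, p000, p001, p010, p011, p020, p021, p030, p031, p100, p101, p110, p111, p120, p121, p130, p131, p200, p201, p210, p211, p220, p221, p230, p231, p300, p301, p310, p311, p320, p321, p330, p331, mul_zero, mul_one, add_zero, zero_add, Pi.zero_apply] at E
    linear_combination (1/(-1) : ℂ) * E + (-(1)/(-1) : ℂ) * hg013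
  have hg103 : x (Sum.inl (1, 0, 3)) = 0 := by
    have E := congrFun h (Sum.inl (2, 1, 0, 1))
    simp only [sys, sysE, Sum.elim_inl, Fin.sum_univ_four, Fin.sum_univ_two, p000, p001, p010, p011, p020, p021, p030, p031, p100, p101, p110, p111, p120, p121, p130, p131, p200, p201, p210, p211, p220, p221, p230, p231, p300, p301, p310, p311, p320, p321, p330, p331, mul_zero, mul_one, add_zero, zero_add, Pi.zero_apply] at E
    linear_combination (1/(1) : ℂ) * E + (-(-1)/(1) : ℂ) * hg201
  have hg220 : x (Sum.inl (2, 2, 0)) = 0 := by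
    have E := congrFun h (Sum.inl (2, 2, 0, 0))
    simp only [sys, sysE, Sum.elim_inl, Fin.sum_univ_four, Fin.sum_univ_two, p000, p001, p010, p011, p020, p021, p030, p031, p100, p101, p110, p111, p120, p121, p130, p131, p200, p201, p210, p211, p220, p221, p230, p231, p300, p301, p310, p311, p320, p321, p330, p331, mul_zero, mul_one, add_zero, zero_add, Pi.zero_apply] at E
    linear_combination (1/(-1) : ℂ) * E
  have hg223 : x (Sum.inl (2, 2, 3)) = 0 := by
    have E := congrFun h (Sum.inl (2, 2, 1, 0))
    simp only [sys, sysE, Sum.elim_inl, Fin.sum_univ_four, Fin.sum_univ_two, p000, p001, p010, p011, p020, p021, p030, p031, p100, p101, p110, p111, p120, p121, p130, p131, p200, p201, p210, p211, p220, p221, p230, p231, p300, p301, p310, p311, p320, p321, p330, p331, mul_zero, mul_one, add_zero, zero_add, Pi.zero_apply] at E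
    linear_combination (1/(-1) : ℂ) * E
  have hg221 : x (Sum.inl (2, 2, 1)) = 0 := by
    have E := congrFun h (Sum.inl (2, 2, 1, 1))
    simp only [sys, sysE, Sum.elim_inl, Fin.sum_univ_four, Fin.sum_univ_two, p000, p001, p010, p011, p020, p021, p030, p031, p100, p101, p110, p111, p120, p121, p130, p131, p200, p201, p210, p211, p220, p221, p230, p231, p300, p301, p310, p311, p320, p321, p330, p331, mul_zero, mul_one, add_zero, zero_add, Pi.zero_apply] at E
    linear_combination (1/(-1) : ℂ) * E
  have hg222 : x (Sum.inl (2, 2, 2)) = 0 := by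
    have E := congrFun h (Sum.inl (2, 2, 2, 0))
    simp only [sys, sysE, Sum.elim_inl, Fin.sum_univ_four, Fin.sum_univ_two, p000, p001, p010, p011, p020, p021, p030, p031, p100, p101, p110, p111, p120, p121, p130, p131, p200, p201, p210, p211, p220, p221, p230, p231, p300, p301, p310, p311, p320, p321, p330, p331, mul_zero, mul_one, add_zero, zero_add, Pi.zero_apply] at E
    linear_combination (1/(-1) : ℂ) * E
  have hg303 : x (Sum.inl (3, 0, 3)) = 0 := by
    have E := congrFun h (Sum.inl (2, 3, 0, 1))
    simp only [sys, sysE, Sum.elim_inl, Fin.sum_univ_four, Fin.sum_univ_two, p000, p001, p010, p011, p020, p021, p030, p031, p100, p101, p110, p111, p120, p121, p130, p131, p200, p201, p210, p211, p220, p221, p230, p231, p300, p301, p310, p311, p320, p321, p330, p331, mul_zero, mul_one, add_zero, zero_add, Pi.zero_apply] at E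
    linear_combination (1/(1) : ℂ) * E
  have hg323 : x (Sum.inl (3, 2, 3)) = 0 := by
    have E := congrFun h (Sum.inl (2, 3, 2, 1))
    simp only [sys, sysE, Sum.elim_inl, Fin.sum_univ_four, Fin.sum_univ_two, p000, p001, p010, p011, p020, p021, p030, p031, p100, p101, p110, p111, p120, p121, p130, p131, p200, p201, p210, p211, p220, p221, p230, p231, p300, p301, p310, p311, p320, p321, p330, p331, mul_zero, mul_one, add_zero, zero_add, Pi.zero_apply] at E
    linear_combination (1/(1) : ℂ) * E + (-(-1)/(1) : ℂ) * hr301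
  have hr001 : x (Sum.inr (0, 0, 1)) = 0 := by
    have E := congrFun h (Sum.inl (3, 0, 1, 1))
    simp only [sys, sysE, Sum.elim_inl, Fin.sum_univ_four, Fin.sum_univ_two, p000, p001, p010, p011, p020, p021, p030, p031, p100, p101, p110, p111, p120, p121, p130, p131, p200, p201, p210, p211, p220, p221, p230, p231, p300, p301, p310, p311, p320, p321, p330, p331, mul_zero, mul_one, add_zero, zero_add, Pi.zero_apply] at E
    linear_combination (1/(-1) : ℂ) * E + (-(-1)/(-1) : ℂ) * hg301
  have hg302 : x (Sum.inl (3, 0, 2)) = 0 := by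
    have E := congrFun h (Sum.inl (3, 0, 3, 1))
    simp only [sys, sysE, Sum.elim_inl, Fin.sum_univ_four, Fin.sum_univ_two, p000, p001, p010, p011, p020, p021, p030, p031, p100, p101, p110, p111, p120, p121, p130, p131, p200, p201, p210, p211, p220, p221, p230, p231, p300, p301, p310, p311, p320, p321, p330, p331, mul_zero, mul_one, add_zero, zero_add, Pi.zero_apply] at E
    linear_combination (1/(-1) : ℂ) * E
  have hg310 : x (Sum.inl (3, 1, 0)) = 0 := by
    have E := congrFun h (Sum.inl (3, 1, 0, 0))
    simp only [sys, sysE, Sum.elim_inl, Fin.sum_univ_four, Fin.sum_univ_two, p000, p001, p010, p011, p020, p021, p030, p031, p100, p101, p110, p111, p120, p121, p130, p131, p200, p201, p210, p211, p220, p221, p230, p231, p300, p301, p310, p311, p320, p321, p330, p331, mul_zero, mul_one, add_zero, zero_add, Pi.zero_apply] at E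
    linear_combination (1/(-1) : ℂ) * E + (-(1)/(-1) : ℂ) * hg101
  have hg320 : x (Sum.inl (3, 2, 0)) = 0 := by
    have E := congrFun h (Sum.inl (3, 2, 0, 0))
    simp only [sys, sysE, Sum.elim_inl, Fin.sum_univ_four, Fin.sum_univ_two, p000, p001, p010, p011, p020, p021, p030, p031, p100, p101, p110, p111, p120, p121, p130, p131, p200, p201, p210, p211, p220, p221, p230, p231, p300, p301, p310, p311, p320, p321, p330, p331, mul_zero, mul_one, add_zero, zero_add, Pi.zero_apply] at E
    linear_combination (1/(-1) : ℂ) * E + (-(1)/(-1) : ℂ) * hg201 + (-(-1)/(-1) : ℂ) * hg302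
  have hg313 : x (Sum.inl (3, 1, 3)) = 0 := by
    have E := congrFun h (Sum.inl (3, 2, 1, 1))
    simp only [sys, sysE, Sum.elim_inl, Fin.sum_univ_four, Fin.sum_univ_two, p000, p001, p010, p011, p020, p021, p030, p031, p100, p101, p110, p111, p120, p121, p130, p131, p200, p201, p210, p211, p220, p221, p230, p231, p300, p301, p310, p311, p320, p321, p330, p331, mul_zero, mul_one, add_zero, zero_add, Pi.zero_apply] at E
    linear_combination (1/(-1) : ℂ) * E + (-(-1)/(-1) : ℂ) * hg321 + (-(-1)/(-1) : ℂ) * hr201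
  have hg330 : x (Sum.inl (3, 3, 0)) = 0 := by
    have E := congrFun h (Sum.inl (3, 3, 0, 0))
    simp only [sys, sysE, Sum.elim_inl, Fin.sum_univ_four, Fin.sum_univ_two, p000, p001, p010, p011, p020, p021, p030, p031, p100, p101, p110, p111, p120, p121, p130, p131, p200, p201, p210, p211, p220, p221, p230, p231, p300, p301, p310, p311, p320, p321, p330, p331, mul_zero, mul_one, add_zero, zero_add, Pi.zero_apply] at E
    linear_combination (1/(-1) : ℂ) * E
  have hg333 : x (Sum.inl (3, 3, 3)) = 0 := by
    have E := congrFun h (Sum.inl (3, 3, 1, 0))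
    simp only [sys, sysE, Sum.elim_inl, Fin.sum_univ_four, Fin.sum_univ_two, p000, p001, p010, p011, p020, p021, p030, p031, p100, p101, p110, p111, p120, p121, p130, p131, p200, p201, p210, p211, p220, p221, p230, p231, p300, p301, p310, p311, p320, p321, p330, p331, mul_zero, mul_one, add_zero, zero_add, Pi.zero_apply] at E
    linear_combination (1/(-1) : ℂ) * E
  have hg331 : x (Sum.inl (3, 3, 1)) = 0 := by
    have E := congrFun h (Sum.inl (3, 3, 1, 1))
    simp only [sys, sysE, Sum.elim_inl, Fin.sum_univ_four, Fin.sum_univ_two, p000, p001, p010, p011, p020, p021, p030, p031, p100, p101, p110, p111, p120, p121, p130, p131, p200, p201, p210, p211, p220, p221, p230, p231, p300, p301, p310, p311, p320, p321, p330, p331, mul_zero, mul_one, add_zero, zero_add, Pi.zero_apply] at E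
    linear_combination (1/(-1) : ℂ) * E
  have hg332 : x (Sum.inl (3, 3, 2)) = 0 := by
    have E := congrFun h (Sum.inl (3, 3, 2, 0))
    simp only [sys, sysE, Sum.elim_inl, Fin.sum_univ_four, Fin.sum_univ_two, p000, p001, p010, p011, p020, p021, p030, p031, p100, p101, p110, p111, p120, p121, p130, p131, p200, p201, p210, p211, p220, p221, p230, p231, p300, p301, p310, p311, p320, p321, p330, p331, mul_zero, mul_one, add_zero, zero_add, Pi.zero_apply] at E
    linear_combination (1/(-1) : ℂ) * E
  have hg011 : x (Sum.inl (0, 1, 1)) = 0 := by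
    have E := congrFun h (Sum.inr (0, 1, 1))
    simp only [sys, Sum.elim_inr, Pi.zero_apply] at E
    linear_combination (1/(1) : ℂ) * E + (-(1)/(1) : ℂ) * hg101
  have hg031 : x (Sum.inl (0, 3, 1)) = 0 := by
    have E := congrFun h (Sum.inr (0, 3, 1))
    simp only [sys, Sum.elim_inr, Pi.zero_apply] at E
    linear_combination (1/(1) : ℂ) * E + (-(1)/(1) : ℂ) * hg301
  have hg033 : x (Sum.inl (0, 3, 3)) = 0 := by
    have E := congrFun h (Sum.inr (0, 3, 3))
    simp only [sys, Sum.elim_inr, Pi.zero_apply] at E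
    linear_combination (1/(1) : ℂ) * E + (-(1)/(1) : ℂ) * hg303
  have hg311 : x (Sum.inl (3, 1, 1)) = 0 := by
    have E := congrFun h (Sum.inr (1, 3, 1))
    simp only [sys, Sum.elim_inr, Pi.zero_apply] at E
    linear_combination (1/(1) : ℂ) * E + (-(1)/(1) : ℂ) * hg131
  have hg133 : x (Sum.inl (1, 3, 3)) = 0 := by
    have E := congrFun h (Sum.inr (1, 3, 3))
    simp only [sys, Sum.elim_inr, Pi.zero_apply] at E
    linear_combination (1/(1) : ℂ) * E + (-(1)/(1) : ℂ) * hg313
  have hg230 : x (Sum.inl (2, 3, 0)) = 0 := by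
    have E := congrFun h (Sum.inr (2, 3, 0))
    simp only [sys, Sum.elim_inr, Pi.zero_apply] at E
    linear_combination (1/(1) : ℂ) * E + (-(1)/(1) : ℂ) * hg320
  have hg231 : x (Sum.inl (2, 3, 1)) = 0 := by
    have E := congrFun h (Sum.inr (2, 3, 1))
    simp only [sys, Sum.elim_inr, Pi.zero_apply] at E
    linear_combination (1/(1) : ℂ) * E + (-(1)/(1) : ℂ) * hg321
  have hg233 : x (Sum.inl (2, 3, 3)) = 0 := by
    have E := congrFun h (Sum.inr (2, 3, 3))
    simp only [sys, Sum.elim_inr, Pi.zero_apply] at E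
    linear_combination (1/(1) : ℂ) * E + (-(1)/(1) : ℂ) * hg323
  have hr010 : x (Sum.inr (0, 1, 0)) = 0 := by
    have E := congrFun h (Sum.inl (0, 1, 1, 0))
    simp only [sys, sysE, Sum.elim_inl, Fin.sum_univ_four, Fin.sum_univ_two, p000, p001, p010, p011, p020, p021, p030, p031, p100, p101, p110, p111, p120, p121, p130, p131, p200, p201, p210, p211, p220, p221, p230, p231, p300, p301, p310, p311, p320, p321, p330, p331, mul_zero, mul_one, add_zero, zero_add, Pi.zero_apply] at E
    linear_combination (1/(1) : ℂ) * E + (-(1)/(1) : ℂ) * hg110 + (-(-1)/(1) : ℂ) * hg013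
  have hr011 : x (Sum.inr (0, 1, 1)) = 0 := by
    have E := congrFun h (Sum.inl (0, 1, 1, 1))
    simp only [sys, sysE, Sum.elim_inl, Fin.sum_univ_four, Fin.sum_univ_two, p000, p001, p010, p011, p020, p021, p030, p031, p100, p101, p110, p111, p120, p121, p130, p131, p200, p201, p210, p211, p220, p221, p230, p231, p300, p301, p310, p311, p320, p321, p330, p331, mul_zero, mul_one, add_zero, zero_add, Pi.zero_apply] at E
    linear_combination (1/(1) : ℂ) * E + (-(-2)/(1) : ℂ) * hg011
  have hg012 : x (Sum.inl (0, 1, 2)) = 0 := by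
    have E := congrFun h (Sum.inl (0, 1, 3, 1))
    simp only [sys, sysE, Sum.elim_inl, Fin.sum_univ_four, Fin.sum_univ_two, p000, p001, p010, p011, p020, p021, p030, p031, p100, p101, p110, p111, p120, p121, p130, p131, p200, p201, p210, p211, p220, p221, p230, p231, p300, p301, p310, p311, p320, p321, p330, p331, mul_zero, mul_one, add_zero, zero_add, Pi.zero_apply] at E
    linear_combination (1/(-1) : ℂ) * E + (-(-1)/(-1) : ℂ) * hg031
  have hg023 : x (Sum.inl (0, 2, 3)) = 0 := by
    have E := congrFun h (Sum.inl (0, 2, 2, 1))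
    simp only [sys, sysE, Sum.elim_inl, Fin.sum_univ_four, Fin.sum_univ_two, p000, p001, p010, p011, p020, p021, p030, p031, p100, p101, p110, p111, p120, p121, p130, p131, p200, p201, p210, p211, p220, p221, p230, p231, p300, p301, p310, p311, p320, p321, p330, p331, mul_zero, mul_one, add_zero, zero_add, Pi.zero_apply] at E
    linear_combination (1/(-1) : ℂ) * E + (-(1)/(-1) : ℂ) * hr001
  have hg022 : x (Sum.inl (0, 2, 2)) = 0 := by
    have E := congrFun h (Sum.inl (0, 2, 3, 1))
    simp only [sys, sysE, Sum.elim_inl, Fin.sum_univ_four, Fin.sum_univ_two, p000, p001, p010, p011, p020, p021, p030, p031, p100, p101, p110, p111, p120, p121, p130, p131, p200, p201, p210, p211, p220, p221, p230, p231, p300, p301, p310, p311, p320, p321, p330, p331, mul_zero, mul_one, add_zero, zero_add, Pi.zero_apply] at E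
    linear_combination (1/(-1) : ℂ) * E + (-(-1)/(-1) : ℂ) * hg033 + (-(1)/(-1) : ℂ) * hr011
  have hr000 : x (Sum.inr (0, 0, 0)) = 0 := by
    have E := congrFun h (Sum.inl (0, 3, 1, 0))
    simp only [sys, sysE, Sum.elim_inl, Fin.sum_univ_four, Fin.sum_univ_two, p000, p001, p010, p011, p020, p021, p030, p031, p100, p101, p110, p111, p120, p121, p130, p131, p200, p201, p210, p211, p220, p221, p230, p231, p300, p301, p310, p311, p320, p321, p330, p331, mul_zero, mul_one, add_zero, zero_add, Pi.zero_apply] at E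
    linear_combination (1/(1) : ℂ) * E + (-(1)/(1) : ℂ) * hg310 + (-(-1)/(1) : ℂ) * hg011 + (-(-1)/(1) : ℂ) * hg033
  have hg102 : x (Sum.inl (1, 0, 2)) = 0 := by
    have E := congrFun h (Sum.inl (1, 0, 3, 1))
    simp only [sys, sysE, Sum.elim_inl, Fin.sum_univ_four, Fin.sum_univ_two, p000, p001, p010, p011, p020, p021, p030, p031, p100, p101, p110, p111, p120, p121, p130, p131, p200, p201, p210, p211, p220, p221, p230, p231, p300, p301, p310, p311, p320, p321, p330, p331, mul_zero, mul_one, add_zero, zero_add, Pi.zero_apply] at E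
    linear_combination (1/(-1) : ℂ) * E + (-(1)/(-1) : ℂ) * hg031
  have hg120 : x (Sum.inl (1, 2, 0)) = 0 := by
    have E := congrFun h (Sum.inl (1, 2, 0, 0))
    simp only [sys, sysE, Sum.elim_inl, Fin.sum_univ_four, Fin.sum_univ_two, p000, p001, p010, p011, p020, p021, p030, p031, p100, p101, p110, p111, p120, p121, p130, p131, p200, p201, p210, p211, p220, p221, p230, p231, p300, p301, p310, p311, p320, p321, p330, p331, mul_zero, mul_one, add_zero, zero_add, Pi.zero_apply] at E
    linear_combination (1/(-1) : ℂ) * E + (-(-1)/(-1) : ℂ) * hg102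
  have hg123 : x (Sum.inl (1, 2, 3)) = 0 := by
    have E := congrFun h (Sum.inl (1, 2, 2, 1))
    simp only [sys, sysE, Sum.elim_inl, Fin.sum_univ_four, Fin.sum_univ_two, p000, p001, p010, p011, p020, p021, p030, p031, p100, p101, p110, p111, p120, p121, p130, p131, p200, p201, p210, p211, p220, p221, p230, p231, p300, p301, p310, p311, p320, p321, p330, p331, mul_zero, mul_one, add_zero, zero_add, Pi.zero_apply] at E
    linear_combination (1/(-1) : ℂ) * E + (-(1)/(-1) : ℂ) * hg221 + (-(1)/(-1) : ℂ) * hr101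
  have hr311 : x (Sum.inr (3, 1, 1)) = 0 := by
    have E := congrFun h (Sum.inl (1, 3, 1, 1))
    simp only [sys, sysE, Sum.elim_inl, Fin.sum_univ_four, Fin.sum_univ_two, p000, p001, p010, p011, p020, p021, p030, p031, p100, p101, p110, p111, p120, p121, p130, p131, p200, p201, p210, p211, p220, p221, p230, p231, p300, p301, p310, p311, p320, p321, p330, p331, mul_zero, mul_one, add_zero, zero_add, Pi.zero_apply] at E
    linear_combination (1/(-1) : ℂ) * E + (-(1)/(-1) : ℂ) * hg311 + (-(-1)/(-1) : ℂ) * hg131 + (-(1)/(-1) : ℂ) * hr101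
  have hg132 : x (Sum.inl (1, 3, 2)) = 0 := by
    have E := congrFun h (Sum.inl (1, 3, 3, 1))
    simp only [sys, sysE, Sum.elim_inl, Fin.sum_univ_four, Fin.sum_univ_two, p000, p001, p010, p011, p020, p021, p030, p031, p100, p101, p110, p111, p120, p121, p130, p131, p200, p201, p210, p211, p220, p221, p230, p231, p300, p301, p310, p311, p320, p321, p330, p331, mul_zero, mul_one, add_zero, zero_add, Pi.zero_apply] at E
    linear_combination (1/(-1) : ℂ) * E + (-(1)/(-1) : ℂ) * hg331
  have hg202 : x (Sum.inl (2, 0, 2)) = 0 := by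
    have E := congrFun h (Sum.inl (2, 0, 2, 0))
    simp only [sys, sysE, Sum.elim_inl, Fin.sum_univ_four, Fin.sum_univ_two, p000, p001, p010, p011, p020, p021, p030, p031, p100, p101, p110, p111, p120, p121, p130, p131, p200, p201, p210, p211, p220, p221, p230, p231, p300, p301, p310, p311, p320, p321, p330, p331, mul_zero, mul_one, add_zero, zero_add, Pi.zero_apply] at E
    linear_combination (1/(-1) : ℂ) * E + (-(-1)/(-1) : ℂ) * hg220 + (-(1)/(-1) : ℂ) * hg022 + (-(-1)/(-1) : ℂ) * hr000
  have hg210 : x (Sum.inl (2, 1, 0)) = 0 := by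
    have E := congrFun h (Sum.inl (2, 1, 0, 0))
    simp only [sys, sysE, Sum.elim_inl, Fin.sum_univ_four, Fin.sum_univ_two, p000, p001, p010, p011, p020, p021, p030, p031, p100, p101, p110, p111, p120, p121, p130, p131, p200, p201, p210, p211, p220, p221, p230, p231, p300, p301, p310, p311, p320, p321, p330, p331, mul_zero, mul_one, add_zero, zero_add, Pi.zero_apply] at E
    linear_combination (1/(-1) : ℂ) * E + (-(1)/(-1) : ℂ) * hg102
  have hr110 : x (Sum.inr (1, 1, 0)) = 0 := by
    have E := congrFun h (Sum.inl (2, 1, 3, 0))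
    simp only [sys, sysE, Sum.elim_inl, Fin.sum_univ_four, Fin.sum_univ_two, p000, p001, p010, p011, p020, p021, p030, p031, p100, p101, p110, p111, p120, p121, p130, p131, p200, p201, p210, p211, p220, p221, p230, p231, p300, p301, p310, p311, p320, p321, p330, p331, mul_zero, mul_one, add_zero, zero_add, Pi.zero_apply] at E
    linear_combination (1/(-1) : ℂ) * E + (-(1)/(-1) : ℂ) * hg132
  have hr310 : x (Sum.inr (3, 1, 0)) = 0 := by
    have E := congrFun h (Sum.inl (2, 3, 3, 0))
    simp only [sys, sysE, Sum.elim_inl, Fin.sum_univ_four, Fin.sum_univ_two, p000, p001, p010, p011, p020, p021, p030, p031, p100, p101, p110, p111, p120, p121, p130, p131, p200, p201, p210, p211, p220, p221, p230, p231, p300, p301, p310, p311, p320, p321, p330, p331, mul_zero, mul_one, add_zero, zero_add, Pi.zero_apply] at E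
    linear_combination (1/(-1) : ℂ) * E + (-(-1)/(-1) : ℂ) * hg231 + (-(1)/(-1) : ℂ) * hg332
  have hg232 : x (Sum.inl (2, 3, 2)) = 0 := by
    have E := congrFun h (Sum.inl (2, 3, 3, 1))
    simp only [sys, sysE, Sum.elim_inl, Fin.sum_univ_four, Fin.sum_univ_two, p000, p001, p010, p011, p020, p021, p030, p031, p100, p101, p110, p111, p120, p121, p130, p131, p200, p201, p210, p211, p220, p221, p230, p231, p300, p301, p310, p311, p320, p321, p330, p331, mul_zero, mul_one, add_zero, zero_add, Pi.zero_apply] at E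
    linear_combination (1/(-1) : ℂ) * E + (-(1)/(-1) : ℂ) * hg333 + (-(-1)/(-1) : ℂ) * hr311
  have hr100 : x (Sum.inr (1, 0, 0)) = 0 := by
    have E := congrFun h (Sum.inl (3, 1, 1, 0))
    simp only [sys, sysE, Sum.elim_inl, Fin.sum_univ_four, Fin.sum_univ_two, p000, p001, p010, p011, p020, p021, p030, p031, p100, p101, p110, p111, p120, p121, p130, p131, p200, p201, p210, p211, p220, p221, p230, p231, p300, p301, p310, p311, p320, p321, p330, p331, mul_zero, mul_one, add_zero, zero_add, Pi.zero_apply] at E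
    linear_combination (1/(-1) : ℂ) * E + (-(1)/(-1) : ℂ) * hg111 + (-(-1)/(-1) : ℂ) * hg313 + (-(1)/(-1) : ℂ) * hr310
  have hg312 : x (Sum.inl (3, 1, 2)) = 0 := by
    have E := congrFun h (Sum.inl (3, 1, 3, 1))
    simp only [sys, sysE, Sum.elim_inl, Fin.sum_univ_four, Fin.sum_univ_two, p000, p001, p010, p011, p020, p021, p030, p031, p100, p101, p110, p111, p120, p121, p130, p131, p200, p201, p210, p211, p220, p221, p230, p231, p300, p301, p310, p311, p320, p321, p330, p331, mul_zero, mul_one, add_zero, zero_add, Pi.zero_apply] at E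
    linear_combination (1/(-1) : ℂ) * E + (-(-1)/(-1) : ℂ) * hg331
  have hg322 : x (Sum.inl (3, 2, 2)) = 0 := by
    have E := congrFun h (Sum.inl (3, 2, 3, 1))
    simp only [sys, sysE, Sum.elim_inl, Fin.sum_univ_four, Fin.sum_univ_two, p000, p001, p010, p011, p020, p021, p030, p031, p100, p101, p110, p111, p120, p121, p130, p131, p200, p201, p210, p211, p220, p221, p230, p231, p300, p301, p310, p311, p320, p321, p330, p331, mul_zero, mul_one, add_zero, zero_add, Pi.zero_apply] at E
    linear_combination (1/(-1) : ℂ) * E + (-(-1)/(-1) : ℂ) * hg333 + (-(1)/(-1) : ℂ) * hr311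
  have hg203 : x (Sum.inl (2, 0, 3)) = 0 := by
    have E := congrFun h (Sum.inr (0, 2, 3))
    simp only [sys, Sum.elim_inr, Pi.zero_apply] at E
    linear_combination (1/(1) : ℂ) * E + (-(1)/(1) : ℂ) * hg023
  have hg213 : x (Sum.inl (2, 1, 3)) = 0 := by
    have E := congrFun h (Sum.inr (1, 2, 3))
    simp only [sys, Sum.elim_inr, Pi.zero_apply] at E
    linear_combination (1/(1) : ℂ) * E + (-(1)/(1) : ℂ) * hg123
  have hg100 : x (Sum.inl (1, 0, 0)) = 0 := by
    have E := congrFun h (Sum.inl (1, 0, 0, 0))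
    simp only [sys, sysE, Sum.elim_inl, Fin.sum_univ_four, Fin.sum_univ_two, p000, p001, p010, p011, p020, p021, p030, p031, p100, p101, p110, p111, p120, p121, p130, p131, p200, p201, p210, p211, p220, p221, p230, p231, p300, p301, p310, p311, p320, p321, p330, p331, mul_zero, mul_one, add_zero, zero_add, Pi.zero_apply] at E
    linear_combination (1/(-2) : ℂ) * E + (-(1)/(-2) : ℂ) * hr100
  have hr210 : x (Sum.inr (2, 1, 0)) = 0 := by
    have E := congrFun h (Sum.inl (1, 2, 1, 0))
    simp only [sys, sysE, Sum.elim_inl, Fin.sum_univ_four, Fin.sum_univ_two, p000, p001, p010, p011, p020, p021, p030, p031, p100, p101, p110, p111, p120, p121, p130, p131, p200, p201, p210, p211, p220, p221, p230, p231, p300, p301, p310, p311, p320, p321, p330, p331, mul_zero, mul_one, add_zero, zero_add, Pi.zero_apply] at E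
    linear_combination (1/(-1) : ℂ) * E + (-(-1)/(-1) : ℂ) * hg112 + (-(-1)/(-1) : ℂ) * hg123
  have hg122 : x (Sum.inl (1, 2, 2)) = 0 := by
    have E := congrFun h (Sum.inl (1, 2, 2, 0))
    simp only [sys, sysE, Sum.elim_inl, Fin.sum_univ_four, Fin.sum_univ_two, p000, p001, p010, p011, p020, p021, p030, p031, p100, p101, p110, p111, p120, p121, p130, p131, p200, p201, p210, p211, p220, p221, p230, p231, p300, p301, p310, p311, p320, p321, p330, p331, mul_zero, mul_one, add_zero, zero_add, Pi.zero_apply] at E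
    linear_combination (1/(-2) : ℂ) * E + (-(1)/(-2) : ℂ) * hr100
  have hr111 : x (Sum.inr (1, 1, 1)) = 0 := by
    have E := congrFun h (Sum.inl (1, 2, 3, 1))
    simp only [sys, sysE, Sum.elim_inl, Fin.sum_univ_four, Fin.sum_univ_two, p000, p001, p010, p011, p020, p021, p030, p031, p100, p101, p110, p111, p120, p121, p130, p131, p200, p201, p210, p211, p220, p221, p230, p231, p300, p301, p310, p311, p320, p321, p330, p331, mul_zero, mul_one, add_zero, zero_add, Pi.zero_apply] at E
    linear_combination (1/(1) : ℂ) * E + (-(1)/(1) : ℂ) * hg231 + (-(-1)/(1) : ℂ) * hg122 + (-(-1)/(1) : ℂ) * hg133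
  have hg121 : x (Sum.inl (1, 2, 1)) = 0 := by
    have E := congrFun h (Sum.inl (1, 3, 2, 0))
    simp only [sys, sysE, Sum.elim_inl, Fin.sum_univ_four, Fin.sum_univ_two, p000, p001, p010, p011, p020, p021, p030, p031, p100, p101, p110, p111, p120, p121, p130, p131, p200, p201, p210, p211, p220, p221, p230, p231, p300, p301, p310, p311, p320, p321, p330, p331, mul_zero, mul_one, add_zero, zero_add, Pi.zero_apply] at E
    linear_combination (1/(-1) : ℂ) * E + (-(-1)/(-1) : ℂ) * hg132
  have hg212 : x (Sum.inl (2, 1, 2)) = 0 := by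
    have E := congrFun h (Sum.inl (2, 1, 2, 0))
    simp only [sys, sysE, Sum.elim_inl, Fin.sum_univ_four, Fin.sum_univ_two, p000, p001, p010, p011, p020, p021, p030, p031, p100, p101, p110, p111, p120, p121, p130, p131, p200, p201, p210, p211, p220, p221, p230, p231, p300, p301, p310, p311, p320, p321, p330, p331, mul_zero, mul_one, add_zero, zero_add, Pi.zero_apply] at E
    linear_combination (1/(-1) : ℂ) * E + (-(1)/(-1) : ℂ) * hg122 + (-(-1)/(-1) : ℂ) * hr100
  have hr300 : x (Sum.inr (3, 0, 0)) = 0 := by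
    have E := congrFun h (Sum.inl (2, 3, 2, 0))
    simp only [sys, sysE, Sum.elim_inl, Fin.sum_univ_four, Fin.sum_univ_two, p000, p001, p010, p011, p020, p021, p030, p031, p100, p101, p110, p111, p120, p121, p130, p131, p200, p201, p210, p211, p220, p221, p230, p231, p300, p301, p310, p311, p320, p321, p330, p331, mul_zero, mul_one, add_zero, zero_add, Pi.zero_apply] at E
    linear_combination (1/(-1) : ℂ) * E + (-(-1)/(-1) : ℂ) * hg221 + (-(1)/(-1) : ℂ) * hg322 + (-(-1)/(-1) : ℂ) * hg232
  have hg300 : x (Sum.inl (3, 0, 0)) = 0 := by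
    have E := congrFun h (Sum.inl (3, 0, 0, 0))
    simp only [sys, sysE, Sum.elim_inl, Fin.sum_univ_four, Fin.sum_univ_two, p000, p001, p010, p011, p020, p021, p030, p031, p100, p101, p110, p111, p120, p121, p130, p131, p200, p201, p210, p211, p220, p221, p230, p231, p300, p301, p310, p311, p320, p321, p330, p331, mul_zero, mul_one, add_zero, zero_add, Pi.zero_apply] at E
    linear_combination (1/(-2) : ℂ) * E + (-(1)/(-2) : ℂ) * hg001 + (-(1)/(-2) : ℂ) * hr300
  have hg010 : x (Sum.inl (0, 1, 0)) = 0 := by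
    have E := congrFun h (Sum.inr (0, 1, 0))
    simp only [sys, Sum.elim_inr, Pi.zero_apply] at E
    linear_combination (1/(1) : ℂ) * E + (-(1)/(1) : ℂ) * hg100
  have hg030 : x (Sum.inl (0, 3, 0)) = 0 := by
    have E := congrFun h (Sum.inr (0, 3, 0))
    simp only [sys, Sum.elim_inr, Pi.zero_apply] at E
    linear_combination (1/(1) : ℂ) * E + (-(1)/(1) : ℂ) * hg300
  have hg211 : x (Sum.inl (2, 1, 1)) = 0 := by
    have E := congrFun h (Sum.inr (1, 2, 1))
    simp only [sys, Sum.elim_inr, Pi.zero_apply] at E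
    linear_combination (1/(1) : ℂ) * E + (-(1)/(1) : ℂ) * hg121
  have hr211 : x (Sum.inr (2, 1, 1)) = 0 := by
    have E := congrFun h (Sum.inl (1, 2, 1, 1))
    simp only [sys, sysE, Sum.elim_inl, Fin.sum_univ_four, Fin.sum_univ_two, p000, p001, p010, p011, p020, p021, p030, p031, p100, p101, p110, p111, p120, p121, p130, p131, p200, p201, p210, p211, p220, p221, p230, p231, p300, p301, p310, p311, p320, p321, p330, p331, mul_zero, mul_one, add_zero, zero_add, Pi.zero_apply] at E
    linear_combination (1/(-1) : ℂ) * E + (-(1)/(-1) : ℂ) * hg211 + (-(-1)/(-1) : ℂ) * hg121 + (-(-1)/(-1) : ℂ) * hg113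
  have hr200 : x (Sum.inr (2, 0, 0)) = 0 := by
    have E := congrFun h (Sum.inl (2, 3, 1, 0))
    simp only [sys, sysE, Sum.elim_inl, Fin.sum_univ_four, Fin.sum_univ_two, p000, p001, p010, p011, p020, p021, p030, p031, p100, p101, p110, p111, p120, p121, p130, p131, p200, p201, p210, p211, p220, p221, p230, p231, p300, p301, p310, p311, p320, p321, p330, p331, mul_zero, mul_one, add_zero, zero_add, Pi.zero_apply] at E
    linear_combination (1/(1) : ℂ) * E + (-(-1)/(1) : ℂ) * hg211 + (-(1)/(1) : ℂ) * hg312 + (-(-1)/(1) : ℂ) * hg233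
  have hg200 : x (Sum.inl (2, 0, 0)) = 0 := by
    have E := congrFun h (Sum.inl (2, 0, 0, 0))
    simp only [sys, sysE, Sum.elim_inl, Fin.sum_univ_four, Fin.sum_univ_two, p000, p001, p010, p011, p020, p021, p030, p031, p100, p101, p110, p111, p120, p121, p130, p131, p200, p201, p210, p211, p220, p221, p230, p231, p300, p301, p310, p311, p320, p321, p330, p331, mul_zero, mul_one, add_zero, zero_add, Pi.zero_apply] at E
    linear_combination (1/(-2) : ℂ) * E + (-(1)/(-2) : ℂ) * hg002 + (-(1)/(-2) : ℂ) * hr200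
  have hg020 : x (Sum.inl (0, 2, 0)) = 0 := by
    have E := congrFun h (Sum.inr (0, 2, 0))
    simp only [sys, Sum.elim_inr, Pi.zero_apply] at E
    linear_combination (1/(1) : ℂ) * E + (-(1)/(1) : ℂ) * hg200
  funext u
  rcases u with ⟨i, j, l⟩ | ⟨i, b, a⟩
  · fin_cases i <;> fin_cases j <;> fin_cases l <;> assumption
  · fin_cases i <;> fin_cases b <;> fin_cases a <;> assumption

end Pool.Agent.Helper36.LeibSys
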