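import Mathlib
import Pool.Agent.Helper36.LeibBase

set_option autoImplicit false
set_option linter.unusedSimpArgs false

namespace Pool.Agent.Helper36.LeibCore

open Pool.Agent.Helper36.LeibSys

abbrev Vec := Fin 6 → ℂ

def mu (c : Idx → ℂ) (u v : Vec) : Vec :=
  fun k => ∑ i : Fin 6, ∑ j : Fin 6, u i * v j * c (i, j, k)

def muL (c : Idx → ℂ) : Vec →ₗ[ℂ] Vec →ₗ[ℂ] Vec :=
  LinearMap.mk₂ ℂ (mu c)
    (by
      intro u u' v; funext k
      simp only [mu, Pi.add_apply, add_mul, Finset.sum_add_distrib])
    (by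
      intro r u v; funext k
      simp only [mu, Pi.smul_apply, smul_eq_mul, Finset.mul_sum]
      refine Finset.sum_congr rfl fun i _ => Finset.sum_congr rfl fun j _ => ?_
      ring)
    (by
      intro u v v'; funext k
      simp only [mu, Pi.add_apply, mul_add, add_mul, Finset.sum_add_distrib])
    (by
      intro r u v; funext k
      simp only [mu, Pi.smul_apply, smul_eq_mul, Finset.mul_sum]
      refine Finset.sum_congr rfl fun i _ => Finset.sum_congr rfl fun j _ => ?_
      ring)

theorem muL_apply (c : Idx → ℂ) (u v : Vec) : muL c u v = mu c u v := rfl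

def e (i : Fin 6) : Vec := Pi.single i 1

theorem mu_e_right (c : Idx → ℂ) (u : Vec) (j k : Fin 6) :
    mu c u (e j) k = ∑ i, u i * c (i, j, k) := by
  simp only [mu, e]
  refine Finset.sum_congr rfl fun i _ => ?_
  rw [Finset.sum_eq_single j]
  · simp
  · intro b _ hb; simp [Pi.single_eq_of_ne hb]
  · simp

theorem mu_e_e (c : Idx → ℂ) (i j k : Fin 6) : mu c (e i) (e j) k = c (i, j, k) := by
  rw [mu_e_right, Finset.sum_eq_single i]
  · simp [e]
  · intro b _ hb; simp [e, Pi.single_eq_of_ne hb]
  · simp

theorem sum6 {M : Type*} [AddCommMonoid M] (f : Fin 6 → M) :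
    ∑ i, f i = ∑ i : Fin 4, f (lo i) + ∑ a : Fin 2, f (hi a) := by
  have := Fin.sum_univ_add (M := M) (a := 4) (b := 2) f
  exact this

theorem expand_lo (v : Vec) (h : ∀ a, v (hi a) = 0) : v = ∑ i : Fin 4, v (lo i) • e (lo i) := by
  have h1 : v = ∑ i : Fin 6, v i • e i := by
    funext k
    simp [e, Finset.sum_apply, Pi.single_apply]
  rw [sum6] at h1
  simp only [h, zero_smul, Finset.sum_const_zero, add_zero] at h1
  exact h1

theorem core (c : Idx → ℂ)
    (hL : ∀ u v w : Vec, mu c u (mu c v w) = mu c (mu c u v) w + mu c v (mu c u w))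
    (hD1 : c (0, 0, 4) * c (1, 1, 5) - c (0, 0, 5) * c (1, 1, 4) ≠ 0)
    (hD2 : ∀ x : Fin 4 → ℂ, (∀ j k, ∑ i, x i * c (lo i, j, k) = 0) → x = 0)
    (hD3 : ∀ x : Unk → ℂ, sys (pc c) x = 0 → x = 0) :
    ∀ u v w : Vec, mu c (mu c u v) w = 0 ∧ mu c w (mu c u v) = 0 := by
  set D := c (0, 0, 4) * c (1, 1, 5) - c (0, 0, 5) * c (1, 1, 4) with hDdef
  let m : Vec →ₗ[ℂ] Vec →ₗ[ℂ] Vec := muL c
  have hLm : ∀ u v w, m u (m v w) = m (m u v) w + m v (m u w) := hL
  have hee : ∀ i j k, m (e i) (e j) k = c (i, j, k) := fun i j k => mu_e_e c i j k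
  have hsq : ∀ x y, m (m x x) y = 0 := by
    intro x y
    have := hLm x x y
    exact left_eq_add.mp (by rw [add_comm] at this; exact this)
  -- the annihilator elements `h b`
  obtain ⟨h, hN, hh⟩ : ∃ h : Fin 2 → Vec, (∀ b y, m (h b) y = 0) ∧
      (∀ b a, h b (hi a) = if a = b then 1 else 0) := by
    refine ⟨![(c (1, 1, 5) / D) • m (e 0) (e 0) - (c (0, 0, 5) / D) • m (e 1) (e 1),
      (-c (1, 1, 4) / D) • m (e 0) (e 0) + (c (0, 0, 4) / D) • m (e 1) (e 1)], ?_, ?_⟩
    · intro b y
      fin_cases b
      · simp [hsq]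
      · simp [hsq]
    · have h4 : hi 0 = 4 := rfl
      have h5 : hi 1 = 5 := rfl
      intro b a
      fin_cases b <;> fin_cases a
      · simp only [Fin.zero_eta, Fin.isValue, Matrix.cons_val_zero, Pi.sub_apply, Pi.smul_apply,
          smul_eq_mul, h4, hee, if_true]
        field_simp
        rw [hDdef]; ring
      · simp only [Fin.zero_eta, Fin.isValue, Fin.mk_one, Matrix.cons_val_zero, Pi.sub_apply,
          Pi.smul_apply, smul_eq_mul, h5, hee, one_ne_zero, if_false]
        field_simp
        ring
      · simp only [Fin.zero_eta, Fin.isValue, Fin.mk_one, Matrix.cons_val_one, Matrix.cons_val_fin_one, Pi.add_apply,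
          Pi.smul_apply, smul_eq_mul, h4, hee, zero_ne_one, if_false]
        field_simp
        ring
      · simp only [Fin.zero_eta, Fin.isValue, Fin.mk_one, Matrix.cons_val_one, Matrix.cons_val_fin_one, Pi.add_apply,
          Pi.smul_apply, smul_eq_mul, h5, hee, if_true]
        field_simp
        rw [hDdef]; ring
  let P : Vec → Vec := fun x => ∑ b, x (hi b) • h b
  have hPN : ∀ x y, m (P x) y = 0 := by
    intro x y
    simp only [P, map_sum, LinearMap.sum_apply, map_smul, LinearMap.smul_apply, hN, smul_zero,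
      Finset.sum_const_zero]
  have hPhi : ∀ x a, P x (hi a) = x (hi a) := by
    intro x a
    fin_cases a <;> simp [P, hh]
  have hinj : ∀ n : Vec, (∀ y, m n y = 0) → (∀ a, n (hi a) = 0) → n = 0 := by
    intro n hn ha
    have : (fun i => n (lo i)) = 0 := by
      apply hD2
      intro j k
      have h1 := congrFun (hn (e j)) k
      have h2 : m n (e j) k = ∑ i, n i * c (i, j, k) := mu_e_right c n j k
      rw [h2, sum6] at h1
      simpa [ha] using h1
    rw [expand_lo n ha]
    refine Finset.sum_eq_zero fun i _ => ?_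
    rw [show n (lo i) = 0 from congrFun this i, zero_smul]
  have hPn : ∀ n : Vec, (∀ y, m n y = 0) → P n = n := by
    intro n hn
    have : n - P n = 0 := by
      apply hinj
      · intro y; rw [map_sub, LinearMap.sub_apply, hn, hPN, sub_zero]
      · intro a; rw [Pi.sub_apply, hPhi, sub_self]
    exact (sub_eq_zero.mp this).symm
  have hPadd : ∀ x y, P (x + y) = P x + P y := by
    intro x y
    simp only [P, Pi.add_apply, add_smul, Finset.sum_add_distrib]
  -- left multiplication preserves the left annihilator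
  have hmN : ∀ x n : Vec, (∀ y, m n y = 0) → ∀ y, m (m x n) y = 0 := by
    intro x n hn y
    have := hLm x n y
    rw [hn y, hn (m x y)] at this
    simpa using this.symm
  -- decomposition of products
  let g : Vec → Vec → Vec := fun x y => m x y - P (m x y)
  have hghi : ∀ x y a, g x y (hi a) = 0 := by
    intro x y a
    simp [g, hPhi]
  have hgexp : ∀ x y, g x y = ∑ s : Fin 4, g x y (lo s) • e (lo s) := fun x y =>
    expand_lo _ (hghi x y)
  have hmg : ∀ x y, m x y = g x y + P (m x y) := by
    intro x y; simp [g]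
  have hgalt : ∀ x, g x x = 0 := by
    intro x
    simp only [g]
    rw [hPn _ (hsq x), sub_self]
  have hganti : ∀ x y, g x y + g y x = 0 := by
    intro x y
    have h1 := hgalt (x + y)
    have h2 : g (x + y) (x + y) = g x x + g x y + (g y x + g y y) := by
      simp only [g, map_add, LinearMap.add_apply, hPadd]
      abel
    rw [h2, hgalt, hgalt] at h1
    simpa using h1
  let X : Unk → ℂ := Sum.elim (fun t => g (e (lo t.1)) (e (lo t.2.1)) (lo t.2.2))
    (fun t => m (e (lo t.1)) (h t.2.1) (hi t.2.2))
  have hX : sys (pc c) X = 0 := by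
    funext t
    rcases t with ⟨i, j, l, a⟩ | ⟨i, j, l⟩
    · have hl := congrFun (hLm (e (lo i)) (e (lo j)) (e (lo l))) (hi a)
      have h1 : ∀ i j l : Fin 4, ∀ a, m (e (lo i)) (m (e (lo j)) (e (lo l))) (hi a) =
          ∑ s, X (Sum.inl (j, l, s)) * pc c i s a + ∑ b, X (Sum.inr (i, b, a)) * pc c j l b := by
        intro i j l a
        rw [hmg (e (lo j)) (e (lo l)), map_add, Pi.add_apply]
        congr 1
        · rw [hgexp, map_sum, Finset.sum_apply]
          refine Finset.sum_congr rfl fun s _ => ?_
          rw [map_smul, Pi.smul_apply, smul_eq_mul, hee]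
          rfl
        · simp only [P, map_sum, map_smul, Finset.sum_apply, Pi.smul_apply, smul_eq_mul]
          refine Finset.sum_congr rfl fun b _ => ?_
          rw [hee, mul_comm]
          rfl
      have h2 : m (m (e (lo i)) (e (lo j))) (e (lo l)) (hi a) =
          ∑ s, X (Sum.inl (i, j, s)) * pc c s l a := by
        rw [hmg (e (lo i)) (e (lo j)), map_add, LinearMap.add_apply, hPN, add_zero, hgexp, map_sum,
          LinearMap.sum_apply, Finset.sum_apply]
        refine Finset.sum_congr rfl fun s _ => ?_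
        rw [map_smul, LinearMap.smul_apply, Pi.smul_apply, smul_eq_mul, hee]
        rfl
      rw [Pi.add_apply, h1 i j l a, h1 j i l a, h2] at hl
      simp only [sys, Sum.elim_inl, sysE, Pi.zero_apply]
      linear_combination hl
    · simp only [sys, Sum.elim_inr, Pi.zero_apply]
      exact congrFun (hganti (e (lo i)) (e (lo j))) (lo l)
  have hX0 := hD3 X hX
  -- consequences
  have hg0 : ∀ i j : Fin 4, g (e (lo i)) (e (lo j)) = 0 := by
    intro i j
    rw [hgexp]
    refine Finset.sum_eq_zero fun s _ => ?_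
    have : g (e (lo i)) (e (lo j)) (lo s) = 0 := congrFun hX0 (Sum.inl (i, j, s))
    rw [this, zero_smul]
  have hmh : ∀ (i : Fin 4) b, m (e (lo i)) (h b) = 0 := by
    intro i b
    apply hinj _ (hmN _ _ (hN b))
    intro a
    exact congrFun hX0 (Sum.inr (i, b, a))
  have hmn : ∀ (x n : Vec), (∀ y, m n y = 0) → m x n = 0 := by
    intro x n hn
    have hx : x = (x - P x) + P x := by abel
    have hx2 : x - P x = ∑ i : Fin 4, (x - P x) (lo i) • e (lo i) := by
      apply expand_lo
      intro a; rw [Pi.sub_apply, hPhi, sub_self]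
    rw [hx, map_add, LinearMap.add_apply, hPN, add_zero, hx2, map_sum, LinearMap.sum_apply]
    refine Finset.sum_eq_zero fun i _ => ?_
    rw [map_smul, LinearMap.smul_apply, ← hPn n hn]
    simp only [P, map_sum, map_smul, hmh, smul_zero, Finset.sum_const_zero]
  have hmxy : ∀ x y z, m (m x y) z = 0 := by
    intro x y z
    have key : ∀ i j : Fin 4, ∀ z, m (m (e (lo i)) (e (lo j))) z = 0 := by
      intro i j z
      rw [hmg (e (lo i)) (e (lo j)), hg0, zero_add, hPN]
    have hx : x = (x - P x) + P x := by abel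
    have hx2 : x - P x = ∑ i : Fin 4, (x - P x) (lo i) • e (lo i) := by
      apply expand_lo
      intro a; rw [Pi.sub_apply, hPhi, sub_self]
    have hy : y = (y - P y) + P y := by abel
    have hy2 : y - P y = ∑ i : Fin 4, (y - P y) (lo i) • e (lo i) := by
      apply expand_lo
      intro a; rw [Pi.sub_apply, hPhi, sub_self]
    have h1 : m x y = m (x - P x) (y - P y) := by
      conv_lhs => rw [hx]
      rw [map_add, LinearMap.add_apply, hPN, add_zero]
      conv_lhs => rw [hy]
      rw [map_add, hmn _ (P y) (hPN y), add_zero]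
    rw [h1, hx2, hy2]
    simp only [map_sum, LinearMap.sum_apply, map_smul, LinearMap.smul_apply, key, smul_zero,
      Finset.sum_const_zero]
  intro u v w
  exact ⟨hmxy u v w, hmn w (m u v) (hmxy u v)⟩

end Pool.Agent.Helper36.LeibCore
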