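import Mathlib
import Pool.Agent.Helper36.LeibCore

set_option autoImplicit false

namespace Pool.Agent.Helper36.LeibFinal

open Pool.Agent.Helper36.LeibSys Pool.Agent.Helper36.LeibCore Pool.Agent.Helper36.LeibPoly
open MvPolynomial

/-- Zariski closed sets of structure constants -/
def ZCl (Z : Set (Idx → ℂ)) : Prop :=
  ∃ S : Set (MvPolynomial Idx ℂ), Z = {c | ∀ p ∈ S, MvPolynomial.eval c p = 0}

/-- irreducible Zariski closed sets -/
def ZIrr (Z : Set (Idx → ℂ)) : Prop :=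
  ZCl Z ∧ Z.Nonempty ∧ ∀ A B : Set (Idx → ℂ), ZCl A → ZCl B → Z ⊆ A ∪ B → (Z ⊆ A ∨ Z ⊆ B)

/-- the variety of left Leibniz structures -/
def LeibSet : Set (Idx → ℂ) :=
  {c | ∀ u v w : Vec, mu c u (mu c v w) = mu c (mu c u v) w + mu c v (mu c u w)}

/-- the generic product -/
noncomputable def muP (u v : Fin 6 → MvPolynomial Idx ℂ) : Fin 6 → MvPolynomial Idx ℂ :=
  fun k => ∑ i : Fin 6, ∑ j : Fin 6, u i * v j * X (i, j, k)

theorem eval_muP (c : Idx → ℂ) (u v : Fin 6 → MvPolynomial Idx ℂ) (k : Fin 6) :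
    eval c (muP u v k) = mu c (fun i => eval c (u i)) (fun i => eval c (v i)) k := by
  simp [muP, mu]

/-- constant vectors -/
noncomputable def cv (u : Vec) : Fin 6 → MvPolynomial Idx ℂ := fun i => C (u i)

theorem eval_cv (c : Idx → ℂ) (u : Vec) : (fun i => eval c (cv u i)) = u := by
  funext i; simp [cv]

/-- the Leibniz set is Zariski closed -/
theorem leib_closed : ZCl LeibSet := by
  refine ⟨{p | ∃ (u v w : Vec) (t : Fin 6), p = muP (cv u) (muP (cv v) (cv w)) t -
    (muP (muP (cv u) (cv v)) (cv w) t + muP (cv v) (muP (cv u) (cv w)) t)}, ?_⟩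
  ext c
  constructor
  · rintro hc p ⟨u, v, w, t, rfl⟩
    have h := congrFun (hc u v w) t
    simp only [map_sub, map_add, eval_muP, eval_cv]
    rw [h]; simp
  · intro hc u v w
    funext t
    have h := hc _ ⟨u, v, w, t, rfl⟩
    simp only [map_sub, map_add, eval_muP, eval_cv] at h
    exact sub_eq_zero.mp h

theorem vanish_closed (p : MvPolynomial Idx ℂ) : ZCl {c | eval c p = 0} :=
  ⟨{p}, by ext c; simp⟩

theorem singleton_closed (c : Idx → ℂ) : ZCl {c} := by
  refine ⟨{p | ∃ t, p = X t - C (c t)}, ?_⟩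
  ext d
  constructor
  · rintro rfl p ⟨t, rfl⟩
    simp
  · intro h
    have : d = c := by
      funext t
      have := h _ ⟨t, rfl⟩
      simpa [sub_eq_zero] using this
    exact this

/-- In an irreducible set two non-vanishing conditions can be met at the same time. -/
theorem irr_mul {Z : Set (Idx → ℂ)} (hZ : ZIrr Z) {p q : MvPolynomial Idx ℂ} {a b : Idx → ℂ}
    (ha : a ∈ Z) (hb : b ∈ Z) (hp : eval a p ≠ 0) (hq : eval b q ≠ 0) :
    ∃ c ∈ Z, eval c p ≠ 0 ∧ eval c q ≠ 0 := by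
  by_contra hcon
  push Not at hcon
  rcases hZ.2.2 _ _ (vanish_closed p) (vanish_closed q) (by
    intro c hc
    by_cases h : eval c p = 0
    · exact Or.inl h
    · exact Or.inr (hcon c hc h)) with h | h
  · exact hp (h ha)
  · exact hq (h hb)

/-- Every point of the Leibniz variety lies on an irreducible component. -/
theorem exists_component {c : Idx → ℂ} (hc : c ∈ LeibSet) :
    ∃ Z, c ∈ Z ∧ ZIrr Z ∧ Z ⊆ LeibSet ∧ ∀ Z', ZIrr Z' → Z ⊆ Z' → Z' ⊆ LeibSet → Z' = Z := by
  obtain ⟨Z, hZ, hmax⟩ := zorn_subset_nonempty {Z | ZIrr Z ∧ Z ⊆ LeibSet} (by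
    intro K hK hchain hne
    refine ⟨{d | ∀ p : MvPolynomial Idx ℂ, (∀ Y ∈ K, ∀ y ∈ Y, eval y p = 0) → eval d p = 0},
      ⟨⟨⟨{p | ∀ Y ∈ K, ∀ y ∈ Y, eval y p = 0}, by rfl⟩, ?_, ?_⟩, ?_⟩, ?_⟩
    · obtain ⟨Y, hY⟩ := hne
      obtain ⟨y, hy⟩ := (hK hY).1.2.1
      exact ⟨y, fun p hp => hp Y hY y hy⟩
    · rintro A B hA hB hAB
      have hsub : ∀ Y ∈ K, Y ⊆ A ∪ B := fun Y hY y hy => hAB (fun p hp => hp Y hY y hy)
      have hclos : ∀ A, ZCl A → (∀ Y ∈ K, Y ⊆ A) →
          {d | ∀ p : MvPolynomial Idx ℂ, (∀ Y ∈ K, ∀ y ∈ Y, eval y p = 0) → eval d p = 0} ⊆ A := by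
        rintro A ⟨S, rfl⟩ h d hd p hp
        exact hd p (fun Y hY y hy => h Y hY hy p hp)
      by_cases h : ∀ Y ∈ K, Y ⊆ A
      · exact Or.inl (hclos A hA h)
      · right
        apply hclos B hB
        push Not at h
        obtain ⟨Y₀, hY₀, hn⟩ := h
        have h0 : Y₀ ⊆ B := ((hK hY₀).1.2.2 A B hA hB (hsub Y₀ hY₀)).resolve_left hn
        intro Y hY
        rcases hchain.total hY hY₀ with hle | hle
        · exact hle.trans h0
        · exact ((hK hY).1.2.2 A B hA hB (hsub Y hY)).resolve_left (fun hA' => hn (hle.trans hA'))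
    · obtain ⟨S, hS⟩ := leib_closed
      intro d hd
      rw [hS]
      intro p hp
      exact hd p (fun Y hY y hy => by
        have := (hK hY).2 hy
        rw [hS] at this
        exact this p hp)
    · intro Y hY y hy p hp
      exact hp Y hY y hy) {c} ⟨⟨singleton_closed c, ⟨c, rfl⟩, by
        intro A B _ _ hAB
        rcases hAB (Set.mem_singleton c) with h | h
        · exact Or.inl (Set.singleton_subset_iff.2 h)
        · exact Or.inr (Set.singleton_subset_iff.2 h)⟩, Set.singleton_subset_iff.2 hc⟩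
  refine ⟨Z, hZ rfl, hmax.prop.1, hmax.prop.2, ?_⟩
  intro Z' h1 h2 h3
  exact (Set.Subset.antisymm h2 (hmax.le_of_ge ⟨h1, h3⟩ h2)).symm

/-- the matrix whose injectivity expresses that no nonzero vector of `V` annihilates from the
left -/
noncomputable def annMat : Matrix (Fin 6 × Fin 6) (Fin 4) (MvPolynomial Idx ℂ) :=
  Matrix.of fun t i => X (lo i, t.1, t.2)

theorem annMat_mulVec (c : Idx → ℂ) (x : Fin 4 → ℂ) (t : Fin 6 × Fin 6) :
    (annMat.map (eval c)).mulVec x t = ∑ i, x i * c (lo i, t.1, t.2) := by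
  simp [annMat, Matrix.mulVec, dotProduct, mul_comm]

theorem c0_ann (x : Fin 4 → ℂ) (h : (annMat.map (eval c0)).mulVec x = 0) : x = 0 := by
  have h' : ∀ j k, ∑ i, x i * c0 (lo i, j, k) = 0 := by
    intro j k
    rw [← annMat_mulVec c0 x (j, k), h]; rfl
  have l0 : lo 0 = 0 := rfl
  have l1 : lo 1 = 1 := rfl
  have l2 : lo 2 = 2 := rfl
  have l3 : lo 3 = 3 := rfl
  have e0 : x 0 = 0 := by simpa [Fin.sum_univ_four, l0, l1, l2, l3, c0] using h' 0 4
  have e1 : x 1 = 0 := by simpa [Fin.sum_univ_four, l0, l1, l2, l3, c0] using h' 1 5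
  have e2 : x 2 = 0 := by simpa [Fin.sum_univ_four, l0, l1, l2, l3, c0] using h' 2 4
  have e3 : x 3 = 0 := by simpa [Fin.sum_univ_four, l0, l1, l2, l3, c0] using h' 1 4
  funext i
  fin_cases i <;> assumption

/-- a product of two elements for the base point only has components in the last two coordinates,
and depends only on the first four -/
theorem c0_mu_lo (u v : Vec) (i : Fin 4) : mu c0 u v (lo i) = 0 := by
  simp only [mu]
  refine Finset.sum_eq_zero fun a _ => Finset.sum_eq_zero fun b _ => ?_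
  have : c0 (a, b, lo i) = 0 := by
    have h4 : lo i ≠ 4 := by
      intro h; have := congrArg Fin.val h; simp [lo] at this; omega
    have h5 : lo i ≠ 5 := by
      intro h; have := congrArg Fin.val h; simp [lo] at this; omega
    simp [c0, h4, h5]
  rw [this, mul_zero]

theorem c0_mu_zero (u v : Vec) (h : (∀ i, u (lo i) = 0) ∨ (∀ i, v (lo i) = 0)) :
    mu c0 u v = 0 := by
  funext k
  simp only [mu, Pi.zero_apply]
  refine Finset.sum_eq_zero fun a _ => Finset.sum_eq_zero fun b _ => ?_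
  by_cases hc : c0 (a, b, k) = 0
  · rw [hc, mul_zero]
  · have h4 : (∃ i, a = lo i) ∧ (∃ i, b = lo i) := by
      simp only [c0, ite_eq_right_iff, Classical.not_imp, Prod.mk.injEq] at hc
      rcases hc.1 with ⟨rfl, rfl, _⟩ | ⟨rfl, rfl, _⟩ | ⟨rfl, rfl, _⟩ | ⟨rfl, rfl, _⟩ | ⟨rfl, rfl, _⟩
      · exact ⟨⟨0, rfl⟩, ⟨0, rfl⟩⟩
      · exact ⟨⟨1, rfl⟩, ⟨1, rfl⟩⟩
      · exact ⟨⟨2, rfl⟩, ⟨2, rfl⟩⟩
      · exact ⟨⟨2, rfl⟩, ⟨3, rfl⟩⟩
      · exact ⟨⟨3, rfl⟩, ⟨1, rfl⟩⟩
    obtain ⟨⟨i, rfl⟩, ⟨j, rfl⟩⟩ := h4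
    rcases h with h | h
    · rw [h i]; ring
    · rw [h j]; ring

theorem c0_leib : c0 ∈ LeibSet := by
  intro u v w
  rw [c0_mu_zero u (mu c0 v w) (Or.inr (c0_mu_lo v w)),
    c0_mu_zero (mu c0 u v) w (Or.inl (c0_mu_lo u v)),
    c0_mu_zero v (mu c0 u w) (Or.inr (c0_mu_lo u w)), add_zero]

/-- Near the base point every Leibniz algebra is nilpotent of class two: one polynomial condition
suffices. -/
theorem exists_open : ∃ D : MvPolynomial Idx ℂ, eval c0 D ≠ 0 ∧
    ∀ c ∈ LeibSet, eval c D ≠ 0 → ∀ u v w : Vec, mu c (mu c u v) w = 0 ∧ mu c w (mu c u v) = 0 := by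
  obtain ⟨D2, h2, h2'⟩ := exists_poly_of_injective annMat c0 (by
    have : Function.Injective (Matrix.mulVecLin (annMat.map (eval c0))) := by
      rw [injective_iff_map_eq_zero]
      intro x hx
      exact c0_ann x (by simpa using hx)
    exact this)
  obtain ⟨D3, h3, h3'⟩ := exists_poly_of_injective sysMat c0 (by
    have : Function.Injective (Matrix.mulVecLin (sysMat.map (eval c0))) := by
      rw [injective_iff_map_eq_zero]
      intro x hx
      apply c0_inj x
      rw [← sysMat_mulVec]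
      simpa using hx
    exact this)
  refine ⟨(X (0, 0, 4) * X (1, 1, 5) - X (0, 0, 5) * X (1, 1, 4)) * D2 * D3, ?_, ?_⟩
  · have h1 : eval c0 (X (0, 0, 4) * X (1, 1, 5) - X (0, 0, 5) * X (1, 1, 4) :
        MvPolynomial Idx ℂ) ≠ 0 := by
      simp [c0]
    rw [map_mul, map_mul]
    exact mul_ne_zero (mul_ne_zero h1 h2) h3
  · intro c hc hD
    rw [map_mul, map_mul] at hD
    have hD3 := right_ne_zero_of_mul hD
    have hD2 := right_ne_zero_of_mul (left_ne_zero_of_mul hD)
    have hD1 := left_ne_zero_of_mul (left_ne_zero_of_mul hD)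
    apply core c hc
    · simpa using hD1
    · intro x hx
      apply h2' c hD2 x
      funext t
      rw [annMat_mulVec]
      exact hx t.1 t.2
    · intro x hx
      apply h3' c hD3 x
      rw [sysMat_mulVec]
      exact hx

/-- There is an irreducible component of the variety of six-dimensional Leibniz algebras in which
every algebra satisfies `(uv)w = 0 = w(uv)`. -/
theorem exists_nilpotent_component :
    ∃ Z, ZIrr Z ∧ Z ⊆ LeibSet ∧ (∀ Z', ZIrr Z' → Z ⊆ Z' → Z' ⊆ LeibSet → Z' = Z) ∧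
      ∀ c ∈ Z, ∀ u v w : Vec, mu c (mu c u v) w = 0 ∧ mu c w (mu c u v) = 0 := by
  obtain ⟨D, hD0, hD⟩ := exists_open
  obtain ⟨Z, hcZ, hirr, hsub, hmax⟩ := exists_component c0_leib
  refine ⟨Z, hirr, hsub, hmax, ?_⟩
  intro c hc u v w
  constructor
  · funext t
    by_contra hne
    have hq : eval c (muP (muP (cv u) (cv v)) (cv w) t) ≠ 0 := by
      simp only [eval_muP, eval_cv]
      exact hne
    obtain ⟨d, hdZ, hdD, hdq⟩ := irr_mul hirr hcZ hc hD0 hq
    apply hdq
    simp only [eval_muP, eval_cv]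
    rw [(hD d (hsub hdZ) hdD u v w).1]
    rfl
  · funext t
    by_contra hne
    have hq : eval c (muP (cv w) (muP (cv u) (cv v)) t) ≠ 0 := by
      simp only [eval_muP, eval_cv]
      exact hne
    obtain ⟨d, hdZ, hdD, hdq⟩ := irr_mul hirr hcZ hc hD0 hq
    apply hdq
    simp only [eval_muP, eval_cv]
    rw [(hD d (hsub hdZ) hdD u v w).2]
    rfl

end Pool.Agent.Helper36.LeibFinal
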