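import Mathlib

set_option autoImplicit false

namespace Pool.Agent.Helper36.Trop

theorem perm_fact : ∀ p q : Equiv.Perm (Fin 4), (∀ i, p i ≠ i → q i ≠ i → p.symm i = q.symm i) →
    p * p = 1 ∨ q * q = 1 ∨ p = q := by
  decide +kernel

/-- exponent of the monomial attached to the permutation `σ` in the minor with rows `r` and
columns `c` -/
noncomputable def mono {n : ℕ} (r c : Fin 4 → Fin n) (σ : Equiv.Perm (Fin 4)) :
    Sym2 (Fin n) →₀ ℕ :=
  ∑ i, Finsupp.single s(r (σ i), c i) 1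

theorem mono_apply {n : ℕ} (r c : Fin 4 → Fin n) (σ : Equiv.Perm (Fin 4)) (e : Sym2 (Fin n)) :
    mono r c σ e = Fintype.card {i // s(r (σ i), c i) = e} := by
  rw [mono, Finsupp.finsetSum_apply, Fintype.card_subtype]
  simp only [Finsupp.single_apply]
  rw [Finset.card_filter]

theorem exists_perm {n : ℕ} {r c : Fin 4 → Fin n} {σ τ : Equiv.Perm (Fin 4)}
    (h : mono r c σ = mono r c τ) :
    ∃ p : Equiv.Perm (Fin 4), ∀ i, s(r (σ i), c i) = s(r (τ (p i)), c (p i)) := by
  have hc : ∀ e : Sym2 (Fin n), Nonempty ({i // s(r (σ i), c i) = e} ≃ {i // s(r (τ i), c i) = e}) := by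
    intro e
    rw [← Fintype.card_eq, ← mono_apply, ← mono_apply, h]
  refine ⟨Equiv.ofFiberEquiv fun e => (hc e).some, fun i => ?_⟩
  exact (Equiv.ofFiberEquiv_map (fun e => (hc e).some) i).symm

theorem perm_struct {n : ℕ} {r c : Fin 4 → Fin n} (hr : Function.Injective r)
    (hc : Function.Injective c) {σ τ p : Equiv.Perm (Fin 4)}
    (h : ∀ i, s(r (σ i), c i) = s(r (τ (p i)), c (p i))) :
    (∀ i, p i ≠ i → c i = r (σ (p.symm i))) ∧ ∀ i, τ (p i) = σ (p.symm i) := by
  have hB : ∀ i, p i ≠ i → c i = r (σ (p.symm i)) := by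
    intro i hi
    have h1 := h (p.symm i)
    rw [Equiv.apply_symm_apply, Sym2.eq_iff] at h1
    have hne : p.symm i ≠ i := by
      intro h2
      apply hi
      conv_lhs => rw [← h2]
      simp
    rcases h1 with ⟨_, h3⟩ | ⟨h3, _⟩
    · exact absurd (hc h3) hne
    · exact h3.symm
  refine ⟨hB, fun i => ?_⟩
  by_cases hi : p i = i
  · have h1 := h i
    rw [hi, Sym2.eq_iff] at h1
    have h2 : p.symm i = i := by
      conv_lhs => rw [← hi]
      simp
    rw [hi, h2]
    rcases h1 with ⟨h3, _⟩ | ⟨h3, h4⟩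
    · exact (hr h3).symm
    · exact (hr (h3.trans h4)).symm
  · have h1 := h i
    rw [Sym2.eq_iff] at h1
    rcases h1 with ⟨_, h4⟩ | ⟨_, h4⟩
    · exact absurd (hc h4).symm hi
    · exact hr (h4.symm.trans (hB i hi))

theorem at_most_two {n : ℕ} {r c : Fin 4 → Fin n} (hr : Function.Injective r)
    (hc : Function.Injective c) {σ τ ρ : Equiv.Perm (Fin 4)}
    (h1 : mono r c σ = mono r c τ) (h2 : mono r c σ = mono r c ρ) :
    τ = σ ∨ ρ = σ ∨ τ = ρ := by
  obtain ⟨p, hp⟩ := exists_perm h1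
  obtain ⟨q, hq⟩ := exists_perm h2
  obtain ⟨p1, p2⟩ := perm_struct hr hc hp
  obtain ⟨q1, q2⟩ := perm_struct hr hc hq
  have hfin : ∀ (p τ : Equiv.Perm (Fin 4)), (∀ i, τ (p i) = σ (p.symm i)) → p * p = 1 → τ = σ := by
    intro p τ h hpp
    ext i
    have h3 := h (p.symm i)
    rw [Equiv.apply_symm_apply] at h3
    rw [h3]
    congr 2
    have h4 : p (p i) = i := by
      have := congrArg (fun e : Equiv.Perm (Fin 4) => e i) hpp
      simpa using this
    rw [Equiv.symm_apply_eq, Equiv.symm_apply_eq, h4]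
  rcases perm_fact p q (fun i hi hi' => σ.injective (hr ((p1 i hi).symm.trans (q1 i hi')))) with
    h | h | h
  · exact Or.inl (hfin p τ p2 h)
  · exact Or.inr (Or.inl (hfin q ρ q2 h))
  · right; right
    subst h
    ext i
    have h3 := p2 (p.symm i)
    have h4 := q2 (p.symm i)
    rw [Equiv.apply_symm_apply] at h3 h4
    rw [h3, h4]

open Classical in
theorem card_le_two {n : ℕ} {r c : Fin 4 → Fin n} (hr : Function.Injective r)
    (hc : Function.Injective c) (u : Sym2 (Fin n) →₀ ℕ) :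
    (Finset.univ.filter fun σ : Equiv.Perm (Fin 4) => mono r c σ = u).card ≤ 2 := by
  by_contra hcon
  rw [not_le, Finset.two_lt_card] at hcon
  obtain ⟨σ, hσ, τ, hτ, ρ, hρ, h1, h2, h3⟩ := hcon
  simp only [Finset.mem_filter, Finset.mem_univ, true_and] at hσ hτ hρ
  rcases at_most_two hr hc (hσ.trans hτ.symm) (hσ.trans hρ.symm) with h | h | h
  · exact h1 h.symm
  · exact h2 h.symm
  · exact h3 h

end Pool.Agent.Helper36.Trop
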