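import Mathlib

set_option autoImplicit false

namespace Pool.Agent.Helper36.Trop

open MvPolynomial

/-- The polynomial ring `R = ℂ[x_{ij} : i ≤ j]`; its variables are indexed by the unordered pairs
(repetition allowed) of elements of `Fin n`. -/
abbrev Ring (n : ℕ) : Type := MvPolynomial (Sym2 (Fin n)) ℂ

/-- The symmetric `n × n` matrix of indeterminates. -/
noncomputable def genSym (n : ℕ) : Matrix (Fin n) (Fin n) (Ring n) := fun i j => X s(i, j)

/-- The set `F_n` of all `4 × 4` minors of the symmetric matrix of indeterminates. -/
def minors (n : ℕ) : Set (Ring n) :=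
  {f | ∃ r c : Fin 4 ↪o Fin n, f = ((genSym n).submatrix r c).det}

/-- The ideal `I_n` generated by the `4 × 4` minors. -/
noncomputable def minorIdeal (n : ℕ) : Ideal (Ring n) := Ideal.span (minors n)

/-- The weight `w · u` of an exponent vector. -/
noncomputable def weight {n : ℕ} (w : Sym2 (Fin n) → ℝ) (u : Sym2 (Fin n) →₀ ℕ) : ℝ := ∑ e, w e * (u e : ℝ)

/-- The tropical hypersurface of `f`: the weights `w` for which every exponent of `f` minimising
`w · u` is accompanied by another one, that is, the minimum is attained at least twice. -/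
def tropHyp {n : ℕ} (f : Ring n) : Set (Sym2 (Fin n) → ℝ) :=
  {w | ∀ u ∈ f.support, (∀ v ∈ f.support, weight w u ≤ weight w v) →
    ∃ v ∈ f.support, v ≠ u ∧ weight w v = weight w u}


end Pool.Agent.Helper36.Trop
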