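import Mathlib
import Pool.Agent.Helper36.TropDefs

set_option autoImplicit false

namespace Pool.Agent.Helper36.Trop

open MvPolynomial

/-! ### The eight vectors -/

/-- the eight integer vectors -/
def v8 : Fin 8 → Fin 3 → ℤ :=
  ![![1, 0, 1], ![1, 0, 2], ![1, 1, 1], ![1, 1, 2], ![1, 2, 1], ![1, -1, 2], ![0, 1, 1], ![0, 1, 2]]

/-- their Gram matrix -/
def A8 (i j : Fin 8) : ℤ := ∑ k, v8 i k * v8 j k

def phi {n : ℕ} (i : Fin n) : Fin 8 := if h : (i : ℕ) < 8 then ⟨i, h⟩ else 0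

def A {n : ℕ} (e : Sym2 (Fin n)) : ℤ :=
  Sym2.lift ⟨fun i j => A8 (phi i) (phi j), fun i j => by
    simp only [A8]; exact Finset.sum_congr rfl fun k _ => mul_comm _ _⟩ e

def wN {n : ℕ} (e : Sym2 (Fin n)) : ℕ := if (3 : ℤ) ∣ A e then 1 else 0

theorem A_mk {n : ℕ} (i j : Fin n) : A s(i, j) = A8 (phi i) (phi j) := rfl

theorem A_split {n : ℕ} (e : Sym2 (Fin n)) : ∃ B : ℤ, A e = 3 ^ (wN e) * B ∧ ¬ (3 : ℤ) ∣ B := by
  induction e using Sym2.inductionOn with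
  | _ i j =>
    have key : ∀ i j : Fin 8, ∃ B ∈ ({-5, -4, -2, -1, 1, 2, 4, 5, 7, 8} : Finset ℤ),
        A8 i j = 3 ^ (if (3 : ℤ) ∣ A8 i j then 1 else 0) * B := by decide
    obtain ⟨B, hB, h⟩ := key (phi i) (phi j)
    refine ⟨B, h, ?_⟩
    have h3 : ∀ B ∈ ({-5, -4, -2, -1, 1, 2, 4, 5, 7, 8} : Finset ℤ), ¬ (3 : ℤ) ∣ B := by decide
    exact h3 B hB

end Pool.Agent.Helper36.Trop
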