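import Mathlib
import Pool.Agent.Helper36.TropData
import Pool.Agent.Helper36.TropCount

set_option autoImplicit false

namespace Pool.Agent.Helper36.Trop

open MvPolynomial

variable {n : ℕ}

/-- the integral version of a minor -/
noncomputable def minorZ (r c : Fin 4 → Fin n) : MvPolynomial (Sym2 (Fin n)) ℤ :=
  (Matrix.of fun i j => (X s(r i, c j) : MvPolynomial (Sym2 (Fin n)) ℤ)).det

theorem minorZ_eq (r c : Fin 4 → Fin n) :
    minorZ r c = ∑ σ : Equiv.Perm (Fin 4), monomial (mono r c σ) ((Equiv.Perm.sign σ : ℤˣ) : ℤ) := by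
  rw [minorZ, Matrix.det_apply']
  refine Finset.sum_congr rfl fun σ _ => ?_
  have h1 : (∏ i, Matrix.of (fun i j => (X s(r i, c j) : MvPolynomial (Sym2 (Fin n)) ℤ)) (σ i) i) =
      monomial (mono r c σ) 1 := by
    rw [mono, monomial_sum_one]
    rfl
  have h2 : (((Equiv.Perm.sign σ : ℤˣ) : ℤ) : MvPolynomial (Sym2 (Fin n)) ℤ) =
      C ((Equiv.Perm.sign σ : ℤˣ) : ℤ) := by
    simp
  rw [h1, h2, C_mul_monomial, mul_one]

open Classical in
theorem coeff_minorZ (r c : Fin 4 → Fin n) (u : Sym2 (Fin n) →₀ ℕ) :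
    coeff u (minorZ r c) = ∑ σ ∈ Finset.univ.filter (fun σ : Equiv.Perm (Fin 4) => mono r c σ = u),
      ((Equiv.Perm.sign σ : ℤˣ) : ℤ) := by
  rw [minorZ_eq, coeff_sum, Finset.sum_filter]
  refine Finset.sum_congr rfl fun σ _ => ?_
  rw [coeff_monomial]

theorem abs_coeff_le (r c : Fin 4 → Fin n) (hr : Function.Injective r) (hc : Function.Injective c)
    (u : Sym2 (Fin n) →₀ ℕ) : |coeff u (minorZ r c)| ≤ 2 := by
  classical
  rw [coeff_minorZ]
  refine (Finset.abs_sum_le_sum_abs _ _).trans ?_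
  have h1 : ∀ σ : Equiv.Perm (Fin 4), |((Equiv.Perm.sign σ : ℤˣ) : ℤ)| = 1 := by
    intro σ
    rcases Int.units_eq_one_or (Equiv.Perm.sign σ) with h | h <;> simp [h]
  simp only [h1, Finset.sum_const, nsmul_eq_mul, mul_one]
  exact_mod_cast card_le_two hr hc u

theorem coeff_mod_three (r c : Fin 4 → Fin n) (hr : Function.Injective r)
    (hc : Function.Injective c) (u : Sym2 (Fin n) →₀ ℕ) (h : coeff u (minorZ r c) ≠ 0) :
    ¬ (3 : ℤ) ∣ coeff u (minorZ r c) := by
  intro h3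
  have h1 := abs_coeff_le r c hr hc u
  have h2 := Int.le_of_dvd (abs_pos.2 h) ((dvd_abs _ _).2 h3)
  omega

/-- the minors vanish on the Gram matrix `A` -/
theorem eval_minorZ (r c : Fin 4 → Fin n) : eval (fun e => A e) (minorZ r c) = 0 := by
  have h1 : eval (fun e => A e) (minorZ r c) =
      (Matrix.of fun i j => A8 (phi (r i)) (phi (c j))).det := by
    rw [minorZ, RingHom.map_det]
    congr 1
    ext i j
    simp only [RingHom.mapMatrix_apply, Matrix.map_apply, Matrix.of_apply, eval_X]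
    rfl
  rw [h1]
  let P : Matrix (Fin 4) (Fin 4) ℤ := Matrix.of fun i k =>
    if h : (k : ℕ) < 3 then v8 (phi (r i)) ⟨k, h⟩ else 0
  let Q : Matrix (Fin 4) (Fin 4) ℤ := Matrix.of fun k j =>
    if h : (k : ℕ) < 3 then v8 (phi (c j)) ⟨k, h⟩ else 0
  have h2 : (Matrix.of fun i j => A8 (phi (r i)) (phi (c j)) : Matrix (Fin 4) (Fin 4) ℤ) = P * Q := by
    ext i j
    rw [Matrix.mul_apply, Fin.sum_univ_castSucc]
    simp [P, Q, A8, Fin.sum_univ_three]
  rw [h2, Matrix.det_mul]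
  have h3 : P.det = 0 := by
    apply Matrix.det_eq_zero_of_column_eq_zero 3
    intro i
    simp [P]
  rw [h3, zero_mul]

/-- natural number version of the weight -/
def wtN (u : Sym2 (Fin n) →₀ ℕ) : ℕ := ∑ e, wN e * u e

theorem prod_A (u : Sym2 (Fin n) →₀ ℕ) :
    ∃ B : ℤ, ∏ e, A e ^ u e = 3 ^ wtN u * B ∧ ¬ (3 : ℤ) ∣ B := by
  choose B hB hB3 using (A_split (n := n))
  refine ⟨∏ e, B e ^ u e, ?_, ?_⟩
  · have : ∀ e, A e ^ u e = 3 ^ (wN e * u e) * B e ^ u e := by
      intro e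
      conv_lhs => rw [hB e]
      rw [mul_pow, pow_mul]
    simp only [this]
    rw [Finset.prod_mul_distrib, Finset.prod_pow_eq_pow_sum, wtN]
  · have hp : Prime (3 : ℤ) := by norm_num
    rw [hp.dvd_finsetProd_iff]
    rintro ⟨e, _, he⟩
    exact hB3 e (hp.dvd_of_dvd_pow he)

/-- the real weight vector -/
def wR (e : Sym2 (Fin n)) : ℝ := (wN e : ℝ)

theorem weight_wR (u : Sym2 (Fin n) →₀ ℕ) : weight wR u = (wtN u : ℝ) := by
  simp [weight, wtN, wR]

theorem upper_aux (r c : Fin 4 → Fin n) (hr : Function.Injective r)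
    (hc : Function.Injective c) (u : Sym2 (Fin n) →₀ ℕ) (hu : u ∈ (minorZ r c).support)
    (hmin : ∀ v ∈ (minorZ r c).support, wtN u ≤ wtN v) :
    ∃ v ∈ (minorZ r c).support, v ≠ u ∧ wtN v = wtN u := by
  by_contra hcon
  push Not at hcon
  have hlt : ∀ v ∈ (minorZ r c).support, v ≠ u → wtN u + 1 ≤ wtN v := by
    intro v hv hvu
    have h1 := hmin v hv
    have h2 := hcon v hv hvu
    omega
  have h0 := eval_minorZ r c
  rw [eval_eq', ← Finset.add_sum_erase _ _ hu] at h0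
  have h1 : (3 : ℤ) ^ (wtN u + 1) ∣
      ∑ x ∈ (minorZ r c).support.erase u, coeff x (minorZ r c) * ∏ i, A i ^ x i := by
    apply Finset.dvd_sum
    intro x hx
    obtain ⟨B, hB, _⟩ := prod_A x
    rw [hB]
    have := hlt x (Finset.mem_of_mem_erase hx) (Finset.ne_of_mem_erase hx)
    exact Dvd.dvd.mul_left (Dvd.dvd.mul_right (pow_dvd_pow 3 this) B) _
  have h2 : (3 : ℤ) ^ (wtN u + 1) ∣ coeff u (minorZ r c) * ∏ i, A i ^ u i := by
    have := dvd_neg.2 h1
    rwa [← eq_neg_of_add_eq_zero_left h0] at this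
  obtain ⟨B, hB, hB3⟩ := prod_A u
  rw [hB, pow_succ, show coeff u (minorZ r c) * (3 ^ wtN u * B) =
    3 ^ wtN u * (coeff u (minorZ r c) * B) by ring] at h2
  have h3 := (mul_dvd_mul_iff_left (pow_ne_zero (wtN u) (by norm_num : (3 : ℤ) ≠ 0))).1 h2
  have hp : Prime (3 : ℤ) := by norm_num
  rcases hp.dvd_or_dvd h3 with h | h
  · exact coeff_mod_three r c hr hc u (mem_support_iff.1 hu) h
  · exact hB3 h

theorem wR_mem_trop (f : Ring n) (hf : f ∈ minors n) : wR ∈ tropHyp f := by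
  obtain ⟨r, c, rfl⟩ := hf
  have h1 : ((genSym n).submatrix r c).det = map (Int.castRingHom ℂ) (minorZ r c) := by
    rw [minorZ, RingHom.map_det]
    congr 1
    ext i j
    simp [genSym]
  have h2 : ((genSym n).submatrix r c).det.support = (minorZ r c).support := by
    rw [h1]
    exact support_map_of_injective _ (RingHom.injective_int _)
  intro u hu hmin
  rw [h2] at hu hmin ⊢
  obtain ⟨v, hv, hvu, hw⟩ := upper_aux r c r.injective c.injective u hu (fun v hv => by
    have := hmin v hv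
    rw [weight_wR, weight_wR] at this
    exact_mod_cast this)
  exact ⟨v, hv, hvu, by rw [weight_wR, weight_wR, hw]⟩

end Pool.Agent.Helper36.Trop
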