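import Mathlib
import Pool.Agent.Helper36.TropUpper

set_option autoImplicit false
set_option linter.unusedSimpArgs false

namespace Pool.Agent.Helper36.Trop

open MvPolynomial

variable {n : ℕ}

/-- kill the variables of positive weight -/
noncomputable def kill : Ring n →ₐ[ℂ] Ring n :=
  aeval fun e => if wN e = 1 then 0 else X e

theorem wN_le (e : Sym2 (Fin n)) : wN e = 0 ∨ wN e = 1 := by
  unfold wN; split_ifs <;> simp

theorem kill_monomial (v : Sym2 (Fin n) →₀ ℕ) (a : ℂ) :
    kill (monomial v a) = if wtN v = 0 then monomial v a else 0 := by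
  rw [kill, aeval_monomial, Finsupp.prod_fintype _ _ (fun e => pow_zero _)]
  split_ifs with h
  · have h1 : ∀ e, (if wN e = 1 then (0 : Ring n) else X e) ^ v e = X e ^ v e := by
      intro e
      have h2 : wN e * v e = 0 := by
        unfold wtN at h
        exact (Finset.sum_eq_zero_iff.1 h) e (Finset.mem_univ e)
      rcases wN_le e with h3 | h3
      · simp [h3]
      · have : v e = 0 := by simpa [h3] using h2
        simp [this]
    simp only [h1]
    rw [monomial_eq, Finsupp.prod_fintype _ _ (fun e => pow_zero _)]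
    rfl
  · have h1 : ∃ e, wN e = 1 ∧ v e ≠ 0 := by
      by_contra hcon
      push Not at hcon
      apply h
      unfold wtN
      apply Finset.sum_eq_zero
      intro e _
      rcases wN_le e with h3 | h3
      · simp [h3]
      · simp [hcon e h3]
    obtain ⟨e, he, hv⟩ := h1
    rw [Finset.prod_eq_zero (Finset.mem_univ e), mul_zero]
    rw [if_pos he, zero_pow hv]

theorem coeff_kill (f : Ring n) (u : Sym2 (Fin n) →₀ ℕ) :
    coeff u (kill f) = if wtN u = 0 then coeff u f else 0 := by
  induction f using MvPolynomial.induction_on' with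
  | monomial v a =>
    rw [kill_monomial]
    by_cases h : v = u
    · subst h
      split_ifs <;> simp
    · split_ifs <;> simp [coeff_monomial, h]
  | add p q hp hq =>
    rw [map_add, coeff_add, hp, hq, coeff_add]
    split_ifs <;> simp

/-- if killing the weighted variables leaves a single monomial, then `wR` is not in the tropical
hypersurface -/
theorem not_mem_trop (f : Ring n) (u : Sym2 (Fin n) →₀ ℕ) (a : ℂ) (ha : a ≠ 0)
    (h : kill f = monomial u a) : wR ∉ tropHyp f := by
  have hu : coeff u (kill f) = a := by rw [h, coeff_monomial, if_pos rfl]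
  have hu0 : wtN u = 0 := by
    by_contra hne
    rw [coeff_kill, if_neg hne] at hu
    exact ha hu.symm
  rw [coeff_kill, if_pos hu0] at hu
  intro hmem
  obtain ⟨v, hv, hvu, hw⟩ := hmem u (by rw [mem_support_iff, hu]; exact ha) (fun v _ => by
    rw [weight_wR, weight_wR, hu0]; simp)
  rw [weight_wR, weight_wR, hu0] at hw
  have hv0 : wtN v = 0 := by exact_mod_cast hw
  have h1 : coeff v (kill f) = coeff v f := by rw [coeff_kill, if_pos hv0]
  rw [h, coeff_monomial, if_neg (Ne.symm hvu)] at h1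
  exact (mem_support_iff.1 hv) h1.symm

/-- the first eight indices -/
def kap (hn : 8 ≤ n) (i : Fin 8) : Fin n := Fin.castLE hn i

theorem phi_kap (hn : 8 ≤ n) (i : Fin 8) : phi (kap hn i) = i := by
  have : ((kap hn i : Fin n) : ℕ) < 8 := by simp [kap]
  unfold phi
  rw [dif_pos this]
  ext
  simp [kap]

theorem wN_kap (hn : 8 ≤ n) (i j : Fin 8) :
    wN s(kap hn i, kap hn j) = if (3 : ℤ) ∣ A8 i j then 1 else 0 := by
  unfold wN
  rw [A_mk, phi_kap, phi_kap]

theorem kill_kap (hn : 8 ≤ n) (i j : Fin 8) :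
    kill (X s(kap hn i, kap hn j) : Ring n) =
      if (3 : ℤ) ∣ A8 i j then 0 else X s(kap hn i, kap hn j) := by
  rw [kill, aeval_X, wN_kap]
  split_ifs <;> simp_all

/-- the order embedding with given strictly increasing values -/
def emb (hn : 8 ≤ n) (a : Fin 4 → Fin 8) (ha : StrictMono a) : Fin 4 ↪o Fin n :=
  OrderEmbedding.ofStrictMono (fun i => kap hn (a i)) (fun i j h => by
    have := ha h
    simpa [kap] using this)

theorem minor_mem (hn : 8 ≤ n) (a b : Fin 4 → Fin 8) (ha : StrictMono a) (hb : StrictMono b) :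
    ((genSym n).submatrix (emb hn a ha) (emb hn b hb)).det ∈ minorIdeal n :=
  Ideal.subset_span ⟨_, _, rfl⟩

theorem kill_minor (hn : 8 ≤ n) (a b : Fin 4 → Fin 8) (ha : StrictMono a) (hb : StrictMono b) :
    kill (((genSym n).submatrix (emb hn a ha) (emb hn b hb)).det) =
      (Matrix.of fun i j => if (3 : ℤ) ∣ A8 (a i) (b j) then (0 : Ring n)
        else X s(kap hn (a i), kap hn (b j))).det := by
  rw [AlgHom.map_det]
  congr 1
  ext1 i j
  simp only [AlgHom.mapMatrix_apply, Matrix.map_apply, Matrix.submatrix_apply, genSym,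
    Matrix.of_apply]
  exact kill_kap hn (a i) (b j)

theorem det4 {R : Type*} [CommRing R] (M : Fin 4 → Fin 4 → R) :
    (Matrix.of M).det =
      M 0 0 * (M 1 1 * (M 2 2 * M 3 3 - M 2 3 * M 3 2) - M 1 2 * (M 2 1 * M 3 3 - M 2 3 * M 3 1)
        + M 1 3 * (M 2 1 * M 3 2 - M 2 2 * M 3 1))
      - M 0 1 * (M 1 0 * (M 2 2 * M 3 3 - M 2 3 * M 3 2) - M 1 2 * (M 2 0 * M 3 3 - M 2 3 * M 3 0)
        + M 1 3 * (M 2 0 * M 3 2 - M 2 2 * M 3 0))
      + M 0 2 * (M 1 0 * (M 2 1 * M 3 3 - M 2 3 * M 3 1) - M 1 1 * (M 2 0 * M 3 3 - M 2 3 * M 3 0)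
        + M 1 3 * (M 2 0 * M 3 1 - M 2 1 * M 3 0))
      - M 0 3 * (M 1 0 * (M 2 1 * M 3 2 - M 2 2 * M 3 1) - M 1 1 * (M 2 0 * M 3 2 - M 2 2 * M 3 0)
        + M 1 2 * (M 2 0 * M 3 1 - M 2 1 * M 3 0)) := by
  rw [Matrix.det_succ_row_zero]
  simp only [Fin.sum_univ_four, Matrix.det_fin_three, Matrix.submatrix_apply, Matrix.of_apply]
  simp [Fin.succAbove, Fin.succ, Fin.castSucc]
  ring

theorem exists_lower (hn : 8 ≤ n) : ∃ f ∈ minorIdeal n, wR ∉ tropHyp f := by
  let y : Fin 8 → Fin 8 → Ring n := fun i j => X s(kap hn i, kap hn j)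
  have hsym : ∀ i j, y i j = y j i := by
    intro i j; simp only [y]; rw [Sym2.eq_swap]
  let z : Fin 8 → Fin 8 → Ring n := fun i j => if (3 : ℤ) ∣ A8 i j then 0 else y i j
  have z00 : z 0 0 = y 0 0 := if_neg (by decide)
  have z01 : z 0 1 = 0 := if_pos (by decide)
  have z03 : z 0 3 = 0 := if_pos (by decide)
  have z05 : z 0 5 = 0 := if_pos (by decide)
  have z10 : z 1 0 = 0 := if_pos (by decide)
  have z11 : z 1 1 = y 1 1 := if_neg (by decide)
  have z13 : z 1 3 = y 1 3 := if_neg (by decide)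
  have z15 : z 1 5 = y 1 5 := if_neg (by decide)
  have z20 : z 2 0 = y 0 2 := (if_neg (by decide)).trans (hsym 2 0)
  have z21 : z 2 1 = 0 := if_pos (by decide)
  have z22 : z 2 2 = 0 := if_pos (by decide)
  have z23 : z 2 3 = y 2 3 := if_neg (by decide)
  have z24 : z 2 4 = y 2 4 := if_neg (by decide)
  have z25 : z 2 5 = y 2 5 := if_neg (by decide)
  have z32 : z 3 2 = y 2 3 := (if_neg (by decide)).trans (hsym 3 2)
  have z33 : z 3 3 = 0 := if_pos (by decide)
  have z34 : z 3 4 = y 3 4 := if_neg (by decide)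
  have z35 : z 3 5 = y 3 5 := if_neg (by decide)
  have z36 : z 3 6 = 0 := if_pos (by decide)
  have z37 : z 3 7 = y 3 7 := if_neg (by decide)
  have z40 : z 4 0 = y 0 4 := (if_neg (by decide)).trans (hsym 4 0)
  have z41 : z 4 1 = 0 := if_pos (by decide)
  have z42 : z 4 2 = y 2 4 := (if_neg (by decide)).trans (hsym 4 2)
  have z43 : z 4 3 = y 3 4 := (if_neg (by decide)).trans (hsym 4 3)
  have z44 : z 4 4 = 0 := if_pos (by decide)
  have z45 : z 4 5 = y 4 5 := if_neg (by decide)
  have z46 : z 4 6 = 0 := if_pos (by decide)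
  have z47 : z 4 7 = y 4 7 := if_neg (by decide)
  have z52 : z 5 2 = y 2 5 := (if_neg (by decide)).trans (hsym 5 2)
  have z53 : z 5 3 = y 3 5 := (if_neg (by decide)).trans (hsym 5 3)
  have z54 : z 5 4 = y 4 5 := (if_neg (by decide)).trans (hsym 5 4)
  have z55 : z 5 5 = 0 := if_pos (by decide)
  have z62 : z 6 2 = y 2 6 := (if_neg (by decide)).trans (hsym 6 2)
  have z65 : z 6 5 = y 5 6 := (if_neg (by decide)).trans (hsym 6 5)
  have z66 : z 6 6 = y 6 6 := if_neg (by decide)
  have z67 : z 6 7 = 0 := if_pos (by decide)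
  have z72 : z 7 2 = 0 := if_pos (by decide)
  have z75 : z 7 5 = 0 := if_pos (by decide)
  have z76 : z 7 6 = 0 := if_pos (by decide)
  have z77 : z 7 7 = y 7 7 := if_neg (by decide)
  -- the three minors
  have sm1 : StrictMono (![0, 1, 2, 4] : Fin 4 → Fin 8) := by decide
  have sm2 : StrictMono (![0, 1, 3, 5] : Fin 4 → Fin 8) := by decide
  have sm3 : StrictMono (![3, 4, 6, 7] : Fin 4 → Fin 8) := by decide
  have sm4 : StrictMono (![2, 5, 6, 7] : Fin 4 → Fin 8) := by decide
  have sm5 : StrictMono (![2, 3, 4, 5] : Fin 4 → Fin 8) := by decide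
  have km : ∀ (a b : Fin 4 → Fin 8) (ha : StrictMono a) (hb : StrictMono b),
      kill (((genSym n).submatrix (emb hn a ha) (emb hn b hb)).det) =
        (Matrix.of fun i j => z (a i) (b j)).det := fun a b ha hb => kill_minor hn a b ha hb
  let m1 := ((genSym n).submatrix (emb hn _ sm1) (emb hn _ sm2)).det
  let m2 := ((genSym n).submatrix (emb hn _ sm3) (emb hn _ sm4)).det
  let m3 := ((genSym n).submatrix (emb hn _ sm5) (emb hn _ sm5)).det
  let P := y 2 3 * y 4 5
  let Q := y 2 5 * y 3 4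
  let T := y 2 4 * y 3 5
  let α := y 0 0 * y 1 1
  let β := y 6 6 * y 7 7
  have k1 : kill m1 = α * (P - Q) := by
    simp only [m1]
    rw [km, det4]
    simp only [Matrix.cons_val_zero, Matrix.cons_val_one, Matrix.cons_val, z00, z01, z03, z05, z10, z11, z13, z15, z20, z21, z22, z23, z24, z25, z32, z33, z34, z35, z36, z37, z40, z41, z42, z43, z44, z45, z46, z47, z52, z53, z54, z55, z62, z65, z66, z67, z72, z75, z76, z77]
    ring
  have k2 : kill m2 = β * (P - T) := by
    simp only [m2]
    rw [km, det4]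
    simp only [Matrix.cons_val_zero, Matrix.cons_val_one, Matrix.cons_val, z00, z01, z03, z05, z10, z11, z13, z15, z20, z21, z22, z23, z24, z25, z32, z33, z34, z35, z36, z37, z40, z41, z42, z43, z44, z45, z46, z47, z52, z53, z54, z55, z62, z65, z66, z67, z72, z75, z76, z77]
    ring
  have k3 : kill m3 = P ^ 2 + Q ^ 2 + T ^ 2 - 2 * P * Q - 2 * P * T - 2 * Q * T := by
    simp only [m3]
    rw [km, det4]
    simp only [Matrix.cons_val_zero, Matrix.cons_val_one, Matrix.cons_val, z00, z01, z03, z05, z10, z11, z13, z15, z20, z21, z22, z23, z24, z25, z32, z33, z34, z35, z36, z37, z40, z41, z42, z43, z44, z45, z46, z47, z52, z53, z54, z55, z62, z65, z66, z67, z72, z75, z76, z77]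
    ring
  have hy : ∀ i j, ¬ (3 : ℤ) ∣ A8 i j → kill (y i j) = y i j := by
    intro i j h
    simp only [y]
    rw [kill_kap, if_neg h]
  have hP : kill P = P := by
    simp only [P, map_mul]
    rw [hy 2 3 (by decide), hy 4 5 (by decide)]
  have hQ : kill Q = Q := by
    simp only [Q, map_mul]
    rw [hy 2 5 (by decide), hy 3 4 (by decide)]
  have hT : kill T = T := by
    simp only [T, map_mul]
    rw [hy 2 4 (by decide), hy 3 5 (by decide)]
  have hα : kill α = α := by
    simp only [α, map_mul]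
    rw [hy 0 0 (by decide), hy 1 1 (by decide)]
  have hβ : kill β = β := by
    simp only [β, map_mul]
    rw [hy 6 6 (by decide), hy 7 7 (by decide)]
  refine ⟨α * β * m3 - β * (2 * P - Q + T) * m1 - α * (2 * P - T + Q) * m2, ?_, ?_⟩
  · refine Ideal.sub_mem _ (Ideal.sub_mem _ ?_ ?_) ?_
    · exact Ideal.mul_mem_left _ _ (minor_mem hn _ _ sm5 sm5)
    · exact Ideal.mul_mem_left _ _ (minor_mem hn _ _ sm1 sm2)
    · exact Ideal.mul_mem_left _ _ (minor_mem hn _ _ sm3 sm4)
  · have hk : kill (α * β * m3 - β * (2 * P - Q + T) * m1 - α * (2 * P - T + Q) * m2) =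
        C (-3 : ℂ) * (α * β * P ^ 2) := by
      have h2 : kill (2 : Ring n) = 2 := map_ofNat kill 2
      simp only [map_sub, map_mul, map_add, k1, k2, k3, hP, hQ, hT, hα, hβ, h2]
      have h3 : (C (-3 : ℂ) : Ring n) = -3 := by
        rw [map_neg]
        exact congrArg Neg.neg (map_ofNat (C : ℂ →+* Ring n) 3)
      rw [h3]
      ring
    have hmono : ∃ u : Sym2 (Fin n) →₀ ℕ, α * β * P ^ 2 = monomial u (1 : ℂ) := by
      refine ⟨(Finsupp.single s(kap hn 0, kap hn 0) 1 + Finsupp.single s(kap hn 1, kap hn 1) 1) +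
        (Finsupp.single s(kap hn 6, kap hn 6) 1 + Finsupp.single s(kap hn 7, kap hn 7) 1) +
        2 • (Finsupp.single s(kap hn 2, kap hn 3) 1 + Finsupp.single s(kap hn 4, kap hn 5) 1), ?_⟩
      simp only [α, β, P, y, X, monomial_mul, monomial_pow, one_pow, mul_one]
    obtain ⟨u, hu⟩ := hmono
    apply not_mem_trop _ u (-3) (by norm_num)
    rw [hk, hu, C_mul_monomial, mul_one]

end Pool.Agent.Helper36.Trop
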